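import Pool.Agent.H1.S6H.StrD
import Pool.Agent.H84.DPC.Stmts

/-!
# The double plateau, case (alpha), class half: the own slopes are not in a strip
-/

set_option autoImplicit false

namespace Pool.S6C

open Finset Real
open Pool.Agent.H49.Ent Pool.Agent.H32.Dense Pool.STK Pool.KA Pool.KSAT Pool.K2S Pool.PB
open Pool.KS6 hiding ind ind_nonneg
open Pool.FALL Pool.S6H Pool.COP

/-- The window of the double plateau. -/
theorem win_dfr {J : ℕ} {F : Fam 3 J} {A : F.Ω → Prop} {sg : Fin 3 → Fin 3}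
    {u w V H X Pu PN He : ℕ} {al nu kk bb : (Fin 3 → ℤ) × (ℕ × F.ζ) → ℝ} {a s t : F.Ω → ℝ}
    (hF : DFr F A sg u V H Pu PN a s t al nu kk bb)
    (hl : IsLaw (Pool.Agent.H49.Ent.cond F.p A True)) (huw : u ≤ w) (hwJ : w ≤ J)
    (n1 : He + 3 ≤ Pu) (n2 : 3 ≤ PN) :
    ∃ (e n : (Fin 3 → ℤ) × (ℕ × F.ζ) → Fin 3 → ℝ) (b sv : (Fin 3 → ℤ) × (ℕ × F.ζ) → ℝ),
      WIn F A sg w V H X He (PN - 3) 8 4 a s t (fun ω => al (Fam.pt F ω))
        (fun ω => t ω + kk (Fam.pt F ω)) e n b sv := by
  classical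
  obtain ⟨φ, hφ⟩ := exists_fun A (Fam.pt F) (fun ω => (s ω, t ω)) (by
    intro ω ω' hω hω' h
    obtain ⟨-, g1, g2⟩ := hF.fp ω ω' hω hω' h
    rw [g1, g2])
  obtain ⟨nN, hnN⟩ := hF.on3
  have n01 : sg 1 ≠ sg 0 := fun e => by have := hF.bij.1 e; omega
  have n02 : sg 2 ≠ sg 0 := fun e => by have := hF.bij.1 e; omega
  have n12 : sg 2 ≠ sg 1 := fun e => by have := hF.bij.1 e; omega
  have hij : ∀ j : Fin 3, j = sg 0 ∨ j = sg 1 ∨ j = sg 2 := by
    intro j
    obtain ⟨i, rfl⟩ := hF.bij.2 j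
    fin_cases i <;> simp
  obtain ⟨sv, hsv⟩ : ∃ sv : (Fin 3 → ℤ) × (ℕ × F.ζ) → ℝ, sv = fun v => (φ v).1 := ⟨_, rfl⟩
  obtain ⟨tv, htv⟩ : ∃ tv : (Fin 3 → ℤ) × (ℕ × F.ζ) → ℝ, tv = fun v => (φ v).2 := ⟨_, rfl⟩
  have hvs : ∀ ω, A ω → s ω = sv (Fam.pt F ω) := fun ω hω => by
    rw [hsv]
    have := hφ ω hω
    simp only
    rw [← this]
  have hvt : ∀ ω, A ω → t ω = tv (Fam.pt F ω) := fun ω hω => by
    rw [htv]
    have := hφ ω hω
    simp only
    rw [← this]
  obtain ⟨e, he⟩ : ∃ e : (Fin 3 → ℤ) × (ℕ × F.ζ) → Fin 3 → ℝ, e = fun v j =>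
      if j = sg 0 then 1 else if j = sg 1 then al v else sv v * al v + (kk v + tv v) := ⟨_, rfl⟩
  obtain ⟨n, hn⟩ : ∃ n : (Fin 3 → ℤ) × (ℕ × F.ζ) → Fin 3 → ℝ, n = fun v j =>
      if j = sg 0 then 0 else if j = sg 1 then nu v else nN v := ⟨_, rfl⟩
  have e0 : ∀ v, e v (sg 0) = 1 := fun v => by rw [he]; simp only [if_pos]
  exact by
   have e1 : ∀ v, e v (sg 1) = al v := fun v => by
     rw [he]
     simp only [if_neg n01, if_pos]
   have e2 : ∀ ω, A ω → e (Fam.pt F ω) (sg 2) = s ω * al (Fam.pt F ω) +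
       (kk (Fam.pt F ω) + t ω) := fun ω hω => by
     rw [he, hvs ω hω, hvt ω hω]
     simp only [if_neg n02, if_neg n12]
   have m0 : ∀ v, n v (sg 0) = 0 := fun v => by rw [hn]; simp only [if_pos]
   have m1 : ∀ v, n v (sg 1) = nu v := fun v => by
     rw [hn]
     simp only [if_neg n01, if_pos]
   have m2 : ∀ v, n v (sg 2) = nN v := fun v => by
     rw [hn]
     simp only [if_neg n02, if_neg n12]
   have p8 : (8 : ℝ) / 2 ^ Pu ≤ 1 / 2 ^ He := by
     have f2 : (2 : ℝ) ^ Pu = 2 ^ (Pu - 3) * 8 := by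
       have : Pu = Pu - 3 + 3 := by omega
       conv_lhs => rw [this, pow_add]
       norm_num
     have f3 : (8 : ℝ) / 2 ^ Pu = 1 / 2 ^ (Pu - 3) := by
       rw [f2]
       field_simp
     rw [f3]
     exact one_le_div (by omega)
   have p9 : (8 : ℝ) / 2 ^ PN = 1 / 2 ^ (PN - 3) := by
     have f2 : (2 : ℝ) ^ PN = 2 ^ (PN - 3) * 8 := by
       have : PN = PN - 3 + 3 := by omega
       conv_lhs => rw [this, pow_add]
       norm_num
     rw [f2]
     field_simp
   exact by
    refine ⟨e, n, bb, sv, hij, hl, by norm_num, by norm_num,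
      fun ω ω' h => hF.fn ω ω' (Pool.S6K.slam_mono huw hwJ h), hF.an1, fun ω hω => ?_,
      fun ω hω => (hF.bd ω hω).2.1, hvs, fun ω hω j => ?_, fun ω hω j => ?_, fun ω hω => ?_,
      fun ω hω => ?_, fun ω hω => ?_⟩
    · rw [add_sub_cancel_left]
      exact hF.an2 ω hω
    · rcases hij j with h | h | h
      · rw [h, e0, m0, one_mul, sub_self, sub_zero, abs_zero]
        positivity
      · rw [h, e1, m1]
        exact (hF.on1 ω hω).trans p8
      · rw [h, e2 ω hω, m2]
        exact (hnN ω hω).trans p8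
    · rcases hij j with h | h | h
      · rw [h, e0]
        norm_num
      · rw [h, e1]
        exact (hF.be ω hω).1
      · rw [h, e2 ω hω]
        exact (hF.be ω hω).2
    · rw [e1, e2 ω hω]
      have f1 : (F.d ω (sg 2) - (s ω * al (Fam.pt F ω) + (kk (Fam.pt F ω) + t ω)) *
          F.d ω (sg 0)) - s ω * (F.d ω (sg 1) - al (Fam.pt F ω) * F.d ω (sg 0)) -
          bb (Fam.pt F ω) = F.d ω (sg 2) - s ω * F.d ω (sg 1) - t ω * F.d ω (sg 0) -
            bb (Fam.pt F ω) - kk (Fam.pt F ω) * F.d ω (sg 0) := by ring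
      rw [f1, ← p9]
      exact hF.on2 ω hω
    · rw [e1, sub_self, abs_zero]
      positivity
    · rw [e1, e2 ω hω]
      have f1 : s ω * al (Fam.pt F ω) + (kk (Fam.pt F ω) + t ω) - s ω * al (Fam.pt F ω) -
          (t ω + kk (Fam.pt F ω)) = 0 := by ring
      rw [f1, abs_zero]
      positivity

/-- **(T5)** The own slopes of a typical line are not in a strip. -/
theorem dstr_thm : DStrStmt := by
  intro S a R h₁ i₀ c s₂ r D σ hC act K W v₁ t e₁ Q₀ P g v₀ a₀ α hLoc N M x₀ ε hx0 hε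
  obtain ⟨x₁, hx₁⟩ : ∃ x₁, x₁ = min x₀ 1 / 2 := ⟨_, rfl⟩
  have hx10 : 0 < x₁ := by
    rw [hx₁]
    have := lt_min hx0 one_pos
    linarith only [this]
  have hx11 : x₁ ≤ 1 / 2 := by
    rw [hx₁]
    have := min_le_right x₀ 1
    linarith only [this]
  have hx12 : 2 * x₁ ≤ x₀ := by
    rw [hx₁]
    have := min_le_left x₀ 1
    linarith
  refine ⟨ε * x₁ / 400, 1, by positivity, one_pos, ?_⟩
  intro rc pe x L e G hN hL1 heL hxL hZ u₀ hu₁ hu₂
  have he := hZ.e0
  have heL' := hZ.eL
  have hLG := hZ.LG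
  have hL : 0 < L := by linarith only [he, heL']
  have hpe0 := hZ.g0
  have g1 := hZ.g1
  have g2 := hZ.g2
  have g7 := hZ.g7
  have g8 := hZ.g8
  have g9 := hZ.g9
  have hv0 := hZ.v0
  have hvR := hZ.vR
  have hR1 := hC.row 1 one_pos le_rfl hC.D1
  have hex : 400 * e ≤ x₁ * x := by
    have h1 : x₁ * (ε * L) ≤ x₁ * x := mul_le_mul_of_nonneg_left hxL hx10.le
    have h2 : ε * x₁ / 400 * L = x₁ * (ε * L) / 400 := by ring
    rw [h2] at heL
    linarith only [heL, h1]
  exact by
   obtain ⟨n₀, hn₀⟩ := exists_nat_gt (2 / L)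
   have hn0 : (0 : ℝ) < n₀ := lt_trans (by positivity) hn₀
   have hm1 : 1 / (n₀ : ℝ) ≤ L / 2 := by
     rw [div_lt_iff₀ hL] at hn₀
     rw [div_le_iff₀ hn0]
     linarith only [hn₀]
   have key : ∀ k < n₀ + 1, Clp S (fun J F A => |(((k : ℚ) / n₀ : ℚ) : ℝ) - W g| ≤ L →
       ∀ G : F.Ω → Prop, Sub G A → 1 / 24 * Pe F.p A ≤ Pe F.p G →
       (∀ iu iN : Fin 3, (∀ j : Fin 3, j = i₀ ∨ j = iu ∨ j = iN) →
         ∀ (e' n' : (Fin 3 → ℤ) × (ℕ × F.ζ) → Fin 3 → ℝ) (sy : (Fin 3 → ℤ) × (ℕ × F.ζ) → ℝ)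
           (s' c' : F.Ω → ℝ), ¬ RcF F G i₀ iu iN ⌊(pe + e) * J⌋₊
             ⌊(((k : ℚ) / n₀ : ℚ) : ℝ) * J⌋₊ ⌊(rc ((k : ℚ) / n₀) + 3 * e) * J⌋₊ 1
             ((1 + 2 * 8) * (1 + 4) + 3) (3 * ((1 + 2 * 8) * (1 + 4)) + 4) e' n' sy s' c') ∧
       ¬ RotU i₀ (1 / 2 ^ ⌊((σ 1).rot ((k : ℚ) / n₀) + e) * J⌋₊)
         (1 / 2 ^ ⌊((σ 1).rot ((k : ℚ) / n₀) + e) * J⌋₊) (Fam.pt F)
         (slam F ⌊(((k : ℚ) / n₀ : ℚ) : ℝ) * J⌋₊) F.d G) := by
     intro k hk
     refine Clp.cnd fun hkL => ?_
     have hk1 : ((k : ℚ) / n₀ : ℚ) ≤ 1 := by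
       have h1 : (0 : ℚ) < n₀ := by exact_mod_cast hn0
       rw [div_le_one h1]
       exact_mod_cast (by omega : k ≤ n₀)
     have hk0 : (0 : ℚ) ≤ (k : ℚ) / n₀ := by positivity
     obtain ⟨z1, -, z2⟩ := hZ.aff _ hkL
     rw [abs_le] at z1
     have hrcn := hN.nonneg hC.ne ((k : ℚ) / n₀)
     exact str_neg hN hpe0 he hrcn (by linarith only [he, heL', hLG, g7, g8, g9, z2]) (hR1.rot _ hk0 hk1)
       (by linarith only [he, heL', hLG, g7, g8, g9, hvR, z1, z1.2]) (by norm_num) _ _ (by norm_num)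
   have c2 : Clp S (fun J F A => 0 < Pe F.p A) :=
     Clp.of one_pos 0 fun J _ F A hA => lt_of_lt_of_le (Real.exp_pos _) (hC.st _ _ _ _ hA).2.2.2
   exact by
    obtain ⟨J₂, hJ₂⟩ := exists_nat_gt (24 / e)
    refine Clp.mono (J₂ := J₂ + 1) ((Clp.all (n₀ + 1) key).and c2) ?_
    rintro J hJ F A ⟨hk, hpos⟩ w₀ q V H X hD sg a s t al nu kk bb hsg hF j hj
    have hJ0' : (0 : ℝ) < J := by
      have : 0 < J := by omega
      exact_mod_cast this
    have hJ0 : (0 : ℝ) ≤ J := hJ0'.le
    have geJ : 24 < e * J := by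
      have h1 : (J₂ : ℝ) ≤ J := by exact_mod_cast (by omega : J₂ ≤ J)
      have := hJ₂.trans_le h1
      rw [div_lt_iff₀ he] at this
      linarith only [this]
    have hl : IsLaw (Pool.Agent.H49.Ent.cond F.p A True) := isLaw_cond F.isLaw hpos
    have hXpos : (0 : ℝ) ≤ X := Nat.cast_nonneg X
    -- products
    have LJ : 0 < L * J := by positivity
    have eLJ : 100 * (e * J) ≤ L * J := by
      have := mul_le_mul_of_nonneg_right heL' hJ0
      linarith only [this]
    have LGJ : 10 * (L * J) ≤ G * J := by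
      have := mul_le_mul_of_nonneg_right hLG hJ0
      linarith only [this]
    have T4 : 200 * (e * J) ≤ x₁ / 2 * X := by
      have h1 := mul_le_mul_of_nonneg_right hex hJ0
      have h2 : x₁ * (x * J) ≤ x₁ * X := mul_le_mul_of_nonneg_left hD.xX hx10.le
      linarith only [h1, h2]
    -- the window
    obtain ⟨w, hwd⟩ : ∃ w, w = w₀ + j * X := ⟨_, rfl⟩
    rw [← hwd]
    have hjX : (0 : ℝ) ≤ (j : ℝ) * X := by positivity
    exact by
     have hu₁J := mul_le_mul_of_nonneg_right hu₁ hJ0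
     have w1 : (u₀ : ℝ) * J + e * J ≤ w := by
       refine hD.uw.trans ?_
       rw [hwd]
       push_cast
       linarith only [hjX]
     have wlow : (W g - L / 4) * J ≤ w := by linarith only [he, heL', hLG, g7, g8, g9, hv0, hvR, geJ, hu₁J, w1]
     have wup : (w : ℝ) + 2 * X ≤ (W g + L / 4) * J := by
       refine le_trans ?_ hD.wu
       rw [hwd]
       have : (j : ℝ) ≤ N := by exact_mod_cast hj.le
       have := mul_le_mul_of_nonneg_right this hXpos
       push_cast
       linarith only [this]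
     have X1 : (X : ℝ) ≤ L / 4 * J := by linarith only [he, heL', hLG, g7, g8, g9, hv0, hvR, geJ, hu₁J, w1, wup]
     have huw : ⌊(u₀ : ℝ) * J⌋₊ ≤ w := Nat.floor_le_of_le (by linarith only [he, heL', hLG, g7, g8, g9, hv0, hvR, geJ, w1])
     -- the rational window
     obtain ⟨k, hkd⟩ : ∃ k : ℕ, k = ⌈(w : ℝ) * n₀ / J⌉₊ := ⟨_, rfl⟩
     have k1 := Nat.le_ceil ((w : ℝ) * n₀ / J)
     have k2 := Nat.ceil_lt_add_one (a := (w : ℝ) * n₀ / J) (by positivity)
     rw [← hkd] at k1 k2
     obtain ⟨u, hu⟩ : ∃ u : ℝ, u = (((k : ℚ) / n₀ : ℚ) : ℝ) := ⟨_, rfl⟩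
     have hu' : u = (k : ℝ) / n₀ := by
       rw [hu]
       push_cast
       rfl
     have u1 : (w : ℝ) ≤ u * J := by
       rw [div_le_iff₀ hJ0'] at k1
       rw [hu', div_mul_eq_mul_div, le_div_iff₀ hn0]
       linarith only [k1]
     exact by
      have u2 : u * J ≤ w + 1 / n₀ * J := by
        have h1 : (k : ℝ) * J ≤ w * n₀ + J := by
          have := mul_le_mul_of_nonneg_right k2.le hJ0
          rw [add_mul, div_mul_cancel₀ _ hJ0'.ne', one_mul] at this
          exact this
        rw [hu', div_mul_eq_mul_div, div_le_iff₀ hn0]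
        have e2 : ((w : ℝ) + 1 / n₀ * J) * n₀ = w * n₀ + J := by
          field_simp
        rw [e2]
        exact h1
      have u3 : W g - L / 4 ≤ u := by
        have : (W g - L / 4) * J ≤ u * J := by linarith only [he, heL', hLG, g7, g8, g9, hv0, hvR, geJ, hu₁J, w1, u1]
        exact le_of_mul_le_mul_right this hJ0'
      have u4 : u ≤ W g + L / 4 + 1 / n₀ := by
        have : u * J ≤ (W g + L / 4 + 1 / n₀) * J := by linarith only [wup, u2]
        exact le_of_mul_le_mul_right this hJ0'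
      have hkL : |(((k : ℚ) / n₀ : ℚ) : ℝ) - W g| ≤ L := by
        rw [← hu, abs_le]
        constructor <;> linarith
      have hwr1 : W g + L ≤ 1 := by linarith only [he, heL', hLG, g7, g8, hv0, hvR]
      have hkn : k < n₀ + 1 := by
        have h1 : u ≤ 1 := by linarith only [he, heL', hLG, g7, g8, hv0, hvR, hm1, u4]
        rw [hu', div_le_one hn0] at h1
        have : k ≤ n₀ := by exact_mod_cast h1
        omega
      obtain ⟨z1, -, z2⟩ := hZ.aff _ hkL
      rw [abs_le] at z1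
      have hneg := hk k hkn hkL
      rw [← hu] at hneg
      have fle : w ≤ ⌊u * J⌋₊ := Nat.le_floor u1
      exact by
       have huJ : ⌊u * J⌋₊ ≤ J := by
         refine Nat.floor_le_of_le ?_
         calc u * J ≤ 1 * J := mul_le_mul_of_nonneg_right (by linarith only [he, heL', hLG, g7, g8, hv0, hvR, hm1, u4]) hJ0
           _ = J := one_mul _
       have hwJ : w ≤ J := fle.trans huJ
       -- the levels
       have hvJ : 0 ≤ v₀ * J := mul_nonneg hv0 hJ0
       have hRJ : 0 ≤ (g - W g - v₀) * J := mul_nonneg (by linarith only [hvR]) hJ0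
       have hV : (V : ℝ) ≤ v₀ * J := by
         refine hD.vu.trans (max_le hvJ ?_)
         linarith only [he, heL', hLG, g7, g8, g9, hv0, hvR, geJ]
       have hH : (H : ℝ) ≤ (g - W g - v₀) * J := by
         refine hD.hu.trans (max_le hRJ ?_)
         linarith only [he, heL', hLG, g7, g8, g9, hv0, hvR, geJ]
       have hV' := hD.vl
       have hH' := hD.hl
       have g8J : G * J < (P - g) * J := mul_lt_mul_of_pos_right g8 hJ0'
       have g1J : ((P - g) + v₀ + G) * J < pe * J := mul_lt_mul_of_pos_right g1 hJ0'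
       have hpeJ : 0 ≤ pe * J := mul_nonneg hpe0 hJ0
       have f1 := Nat.floor_le (mul_nonneg (by linarith only [he, heL', hLG, g1, g8, hv0] : (0 : ℝ) ≤ pe + e) hJ0)
       have n1 : ⌊(pe + e) * J⌋₊ + 3 ≤ ⌊(pe + G / 2) * J⌋₊ := by
         refine Nat.le_floor ?_
         push_cast
         linarith only [he, heL', hLG, g7, g8, g9, hv0, hvR, geJ, eLJ, LGJ, f1]
       have n2 : V + H + X + 3 ≤ ⌊(P - W g + G / 2) * J⌋₊ := by
         refine Nat.le_floor ?_
         push_cast
         linarith only [he, heL', hLG, g7, g8, g9, hv0, hvR, geJ, eLJ, LGJ, hu₁J, w1, wup, hV, hH, g8J]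
       have n3 : V + X ≤ ⌊(pe + e) * J⌋₊ := by
         refine Nat.le_floor ?_
         push_cast
         linarith only [he, heL', hLG, g7, g8, g9, hv0, hvR, geJ, eLJ, LGJ, hu₁J, w1, wup, hV, g8J, g1J]
       exact by
        obtain ⟨e', n', b, sv, hW⟩ := win_dfr (X := X) hF hl huw hwJ n1 (by omega)
        -- the strips with a constant
        have hSb : ∀ ω, 0 < Pool.Agent.H49.Ent.cond F.p A True ω → ∀ i,
            |Pool.DPA.slp F V H a al kk ω i| ≤ 8 := by
          intro ω hω i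
          have hAω : A ω := by
            have := ((cond_pos_iff F.isLaw.nonneg A True ω).1 hω).2
            simpa using this
          fin_cases i
          · show |2 ^ V * (al (Fam.pt F ω) - a ω)| ≤ 8
            rw [abs_mul, abs_of_pos (by positivity : (0 : ℝ) < 2 ^ V)]
            have := hF.an1 ω hAω
            rw [le_div_iff₀ (by positivity)] at this
            linarith only [this]
          · show |2 ^ (V + H) * kk (Fam.pt F ω)| ≤ 8
            rw [abs_mul, abs_of_pos (by positivity : (0 : ℝ) < 2 ^ (V + H))]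
            have := hF.an2 ω hAω
            rw [le_div_iff₀ (by positivity)] at this
            linarith only [this]
        have hXb : (16 : ℝ) ≤ x₁ * X := by
          have : 0 ≤ x₁ / 2 * X := by positivity
          linarith only [he, heL', hLG, g7, g8, g9, hv0, hvR, geJ, T4]
        have hXX : 2 * (x₁ * X) ≤ x₀ * X := by
          have := mul_le_mul_of_nonneg_right hx12 hXpos
          linarith only [this]
        have hSW : SW V H a t (fun ω => al (Fam.pt F ω)) (fun ω => t ω + kk (Fam.pt F ω)) =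
            Pool.DPA.slp F V H a al kk := by
          funext ω i
          fin_cases i
          · rfl
          · show 2 ^ (V + H) * (t ω + kk (Fam.pt F ω) - t ω) = 2 ^ (V + H) * kk (Fam.pt F ω)
            ring
        exact by
         refine nstr_of hl (slam F w) (Pool.DPA.slp F V H a al kk) (K := 8) (x₁ := x₁) (by norm_num)
           hSb ?_ ?_ ?_
         · calc (2 : ℝ) ^ (-(x₀ * X)) ≤ (2 : ℝ) ^ (-1 : ℝ) :=
                 Real.rpow_le_rpow_of_exponent_le (by norm_num) (by linarith only [he, heL', hLG, g7, g8, g9, hv0, hvR, geJ, T4, hXX])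
             _ = 1 / 2 := by rw [Real.rpow_neg_one]; norm_num
         · have h1 : (2 : ℝ) ^ (-(x₁ * X)) = (2 : ℝ) ^ ((x₀ - x₁) * X) * (2 : ℝ) ^ (-(x₀ * X)) := by
             rw [← Real.rpow_add (by norm_num)]
             congr 1
             ring
           rw [h1]
           refine mul_le_mul_of_nonneg_right ?_ (by positivity)
           calc (4 : ℝ) * 8 ≤ (2 : ℝ) ^ (5 : ℝ) := by
                 rw [show (5 : ℝ) = ((5 : ℕ) : ℝ) by norm_num, Real.rpow_natCast]
                 norm_num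
             _ ≤ (2 : ℝ) ^ ((x₀ - x₁) * X) :=
                 Real.rpow_le_rpow_of_exponent_le (by norm_num) (by linarith only [he, heL', hLG, g7, g8, g9, hv0, hvR, geJ, T4, hXX])
         rw [← hSW]
         by_contra hcon
         have hX7 : 2 * (1 + 4) * (2 : ℝ) ^ (x₁ * X) < 2 ^ X := by
           have hXb' : (32 : ℝ) ≤ X := by
             have : x₁ * X ≤ 1 / 2 * X := mul_le_mul_of_nonneg_right hx11 hXpos
             linarith only [he, heL', hLG, g7, g8, g9, hv0, hvR, geJ, T4, this]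
           have h1 : (2 : ℝ) ^ (x₁ * X) ≤ (2 : ℝ) ^ ((X : ℝ) - 4) := by
             refine Real.rpow_le_rpow_of_exponent_le (by norm_num) ?_
             have : x₁ * X ≤ 1 / 2 * X := mul_le_mul_of_nonneg_right hx11 hXpos
             linarith only [he, heL', hLG, g7, g8, g9, hv0, hvR, geJ, T4, this]
           have h2 : (2 : ℝ) ^ ((X : ℝ) - 4) = 2 ^ X / 16 := by
             rw [Real.rpow_sub (by norm_num), Real.rpow_natCast]
             norm_num
           rw [h2] at h1
           have h3 : (0 : ℝ) < 2 ^ X := by positivity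
           linarith only [h1, h3]
         exact by
          have hr : ((⌊(rc ((k : ℚ) / n₀) + 3 * e) * J⌋₊ : ℕ) : ℝ) ≤ V + H + x₁ / 2 * X := by
            have hrcn := hN.nonneg hC.ne ((k : ℚ) / n₀)
            refine (Nat.floor_le (mul_nonneg (by linarith only [he, hrcn]) hJ0)).trans ?_
            have h1 : rc ((k : ℚ) / n₀) + 3 * e ≤ (g - W g) + 4 * e := by linarith only [z2]
            have h2 := mul_le_mul_of_nonneg_right h1 hJ0
            linarith only [he, heL', hLG, g7, g8, g9, hv0, hvR, geJ, T4, hV', hH', h2]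
          obtain ⟨E, hE1, hE2, hE3⟩ := str_fam (v := ⌊u * J⌋₊) hW (slam F w)
            (fun _ _ _ _ h => h) hx10 hx11 (ε := 1 / 4) (by norm_num) hX7 le_rfl n3 (by omega) hr fle huJ
            hcon
          obtain ⟨p1, p2⟩ := hneg E hE1 (by
            refine le_trans (le_of_eq ?_) hE2
            norm_num)
          rcases hE3 with ⟨iu, iN, hii, e₂, n₂, sy, s', c', hR⟩ | ⟨-, e₂, n₂, ζ, hO, hζ⟩
          · rw [hsg] at hii hR
            exact p1 iu iN hii e₂ n₂ sy s' c' (hR.win fle huJ)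
          · have hrot0 : 0 ≤ (σ 1).rot ((k : ℚ) / n₀) + e := by
              have h1 := num_nonneg hC.ne (hR1.rot ((k : ℚ) / n₀) (by positivity) (by
                have h1 : (0 : ℚ) < n₀ := by exact_mod_cast hn0
                rw [div_le_one h1]
                exact_mod_cast (by omega : k ≤ n₀)))
              linarith only [he, h1]
            refine p2 ⟨e₂, n₂, ζ, ?_, ?_⟩
            · intro ω hω j
              have := hO ω hω j
              rw [hsg] at this
              refine this.trans (one_le_div (Nat.floor_le_floor (mul_le_mul_of_nonneg_right ?_ hJ0)))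
              linarith only [he, heL', hLG, g1, g8, z1, z1.2]
            · intro ω hω j
              refine (hζ ω hω j).trans ?_
              have h1 : ((1 + 4) * (2 * 8 + 1) + 2 * 8 : ℝ) * (2 : ℝ) ^ (-(x₁ / 2 * X)) /
                  2 ^ V ≤ (2 : ℝ) ^ (7 + -(x₁ / 2 * X) - (V : ℝ)) := by
                rw [Real.rpow_sub (by norm_num), Real.rpow_add (by norm_num), Real.rpow_natCast]
                refine div_le_div_of_nonneg_right (mul_le_mul_of_nonneg_right ?_ (by positivity))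
                  (by positivity)
                norm_num
              refine h1.trans ?_
              have h2 : (1 : ℝ) / 2 ^ ⌊((σ 1).rot ((k : ℚ) / n₀) + e) * J⌋₊ =
                  (2 : ℝ) ^ (-(⌊((σ 1).rot ((k : ℚ) / n₀) + e) * J⌋₊ : ℝ)) := by
                rw [Real.rpow_neg (by norm_num), Real.rpow_natCast, one_div]
              rw [h2]
              refine Real.rpow_le_rpow_of_exponent_le (by norm_num) ?_
              have h3 := Nat.floor_le (mul_nonneg hrot0 hJ0)
              have h4 : (σ 1).rot ((k : ℚ) / n₀) + e ≤ v₀ + 2 * e := by linarith only [z1, z1.2]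
              have h5 := mul_le_mul_of_nonneg_right h4 hJ0
              linarith only [he, heL', hLG, g7, g8, g9, hv0, hvR, geJ, T4, hV', h3, h5]

end Pool.S6C
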