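import Pool.Agent.H1.S6H.Strip
import Pool.Agent.H19.S6H.Frm
import Pool.Agent.H90.S6R.Tur

/-!
# No strips on typical lines: the class
-/

set_option autoImplicit false

namespace Pool.S6H

open Finset Real
open Pool.Agent.H49.Ent Pool.Agent.H32.Dense Pool.STK Pool.KA Pool.KSAT Pool.K2S Pool.PB
open Pool.KS6 hiding ind ind_nonneg
open Pool.S6C Pool.FALL Pool.COP Pool.S6N

theorem S2_eq_SW {Ω : Type} (V H : ℕ) (a s t a' t' : Ω → ℝ) :
    S2 V H a s t a' s t' = SW V H a t a' t' := by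
  funext ω i
  fin_cases i
  · rfl
  · show 2 ^ (V + H) * ((t' ω - t ω) + (s ω - s ω) * a ω) +
      2 ^ H * (s ω - s ω) * (2 ^ V * (a' ω - a ω)) = 2 ^ (V + H) * (t' ω - t ω)
    ring

/-- Thinner strips. -/
theorem NoStrip.anti {Ω Λ : Type} [Fintype Ω] {c : ℕ} {p : Ω → ℝ} (hp : IsLaw p) {L : Ω → Λ}
    {S : Ω → Fin c → ℝ} {X : ℕ} {x₀ x₁ ε : ℝ} (h01 : x₀ ≤ x₁) (h : NoStrip p L S X x₀ ε) :
    NoStrip p L S X x₁ ε := by
  have hx : (2 : ℝ) ^ (-(x₁ * X)) ≤ (2 : ℝ) ^ (-(x₀ * X)) :=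
    Real.rpow_le_rpow_of_exponent_le (by norm_num)
      (by linarith only [h01, mul_le_mul_of_nonneg_right h01 (Nat.cast_nonneg (α := ℝ) X)])
  refine le_trans (Pool.KAF.Pr_mono hp.nonneg fun ω hω hE => ?_) h
  obtain ⟨n, z, h1, h2, h3⟩ := hE
  refine ⟨n, z, h1, h2, lt_of_lt_of_le h3 ?_⟩
  refine Pool.KAF.Pr_mono (fun v => cond_nonneg hp.nonneg L _ v) fun ρ _ hρ => ?_
  exact lt_of_lt_of_le hρ hx

section one

variable {J : ℕ} {F : Fam 3 J} {A : F.Ω → Prop} {sg : Fin 3 → Fin 3} {N w₀ Δ r V₀ H X : ℕ}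
  {Va Rt Pu PN : ℕ} {a t : ℕ → F.Ω → ℝ} {s a' t' al nu kk bb : F.Ω → ℝ}

/-- The window of the plateau. -/
theorem win_of_hfr (hF : Pool.S6HF.HFr F A sg N w₀ Δ r V₀ H X Va Rt Pu PN a t s a' t' al nu kk bb)
    (hl : IsLaw (Pool.Agent.H49.Ent.cond F.p A True)) {i : ℕ} (hi : i ≤ N) :
    ∃ (e n : (Fin 3 → ℤ) × (ℕ × F.ζ) → Fin 3 → ℝ) (b sv : (Fin 3 → ℤ) × (ℕ × F.ζ) → ℝ),
      WIn F A sg (fw w₀ Δ i) (fv V₀ r i) H X Pu PN 4 4 (a i) s (t i) a' t' e n b sv := by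
  classical
  obtain ⟨nN, hn1, hn2⟩ := hF.on3
  obtain ⟨φ, hφ⟩ := exists_fun A (Fam.pt F)
    (fun ω => (s ω, al ω, nu ω, kk ω, bb ω, nN ω)) (by
      intro ω ω' hω hω' h
      obtain ⟨g1, g2, g3, g4, g5, g6, g7⟩ := hF.fp ω ω' hω hω' h
      have g8 := hn1 ω ω' hω hω' h
      rw [g2, g4, g5, g6, g7, g8])
  have n01 : sg 1 ≠ sg 0 := fun e => by have := hF.bij.1 e; omega
  have n02 : sg 2 ≠ sg 0 := fun e => by have := hF.bij.1 e; omega
  have n12 : sg 2 ≠ sg 1 := fun e => by have := hF.bij.1 e; omega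
  have hij : ∀ j : Fin 3, j = sg 0 ∨ j = sg 1 ∨ j = sg 2 := by
    intro j
    obtain ⟨i, rfl⟩ := hF.bij.2 j
    fin_cases i <;> simp
  have hfv : fv V₀ r i ≤ fv V₀ r N := Pool.S6HF.fv_mono hi
  obtain ⟨e, he⟩ : ∃ e : (Fin 3 → ℤ) × (ℕ × F.ζ) → Fin 3 → ℝ, e = fun v j =>
      if j = sg 0 then 1 else if j = sg 1 then (φ v).2.1 else
        (φ v).1 * (φ v).2.1 + (φ v).2.2.2.1 := ⟨_, rfl⟩
  obtain ⟨n, hn⟩ : ∃ n : (Fin 3 → ℤ) × (ℕ × F.ζ) → Fin 3 → ℝ, n = fun v j =>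
      if j = sg 0 then 0 else if j = sg 1 then (φ v).2.2.1 else (φ v).2.2.2.2.2 := ⟨_, rfl⟩
  have e0 : ∀ ω, e (Fam.pt F ω) (sg 0) = 1 := fun ω => by rw [he]; simp only [if_pos]
  have e1 : ∀ ω, A ω → e (Fam.pt F ω) (sg 1) = al ω := fun ω hω => by
    rw [he]
    simp only [if_neg n01, if_pos]
    rw [← hφ ω hω]
  have e2 : ∀ ω, A ω → e (Fam.pt F ω) (sg 2) = s ω * al ω + kk ω := fun ω hω => by
    rw [he]
    simp only [if_neg n02, if_neg n12]
    rw [← hφ ω hω]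
  exact by
   have m0 : ∀ ω, n (Fam.pt F ω) (sg 0) = 0 := fun ω => by rw [hn]; simp only [if_pos]
   have m1 : ∀ ω, A ω → n (Fam.pt F ω) (sg 1) = nu ω := fun ω hω => by
     rw [hn]
     simp only [if_neg n01, if_pos]
     rw [← hφ ω hω]
   have m2 : ∀ ω, A ω → n (Fam.pt F ω) (sg 2) = nN ω := fun ω hω => by
     rw [hn]
     simp only [if_neg n02, if_neg n12]
     rw [← hφ ω hω]
   have pw : ∀ {x y : ℕ}, x ≤ y → (4 : ℝ) / 2 ^ y ≤ 4 / 2 ^ x := fun {x y} h =>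
     div_le_div_of_nonneg_left (by norm_num) (by positivity) (pow_le_pow_right₀ (by norm_num) h)
   refine ⟨e, n, fun v => (φ v).2.2.2.2.1, fun v => (φ v).1, hij, hl, by norm_num, by norm_num,
     hF.fn i hi, hF.ca i hi, hF.ct i hi, fun ω hω => (hF.bd ω hω).2.1, fun ω hω => ?_,
     fun ω hω j => ?_, fun ω hω j => ?_, fun ω hω => ?_, fun ω hω => ?_, fun ω hω => ?_⟩
   · have := hφ ω hω
     rw [← this]
   · rcases hij j with h | h | h
     · rw [h, e0, m0, one_mul, sub_self, sub_zero, abs_zero]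
       positivity
     · rw [h, e1 ω hω, m1 ω hω]
       exact hF.on1 ω hω
     · rw [h, e2 ω hω, m2 ω hω]
       exact hn2 ω hω
   · rcases hij j with h | h | h
     · rw [h, e0]
       norm_num
     · rw [h, e1 ω hω]
       exact (hF.be ω hω).1
     · rw [h, e2 ω hω]
       exact (hF.be ω hω).2
   · have h1 := hF.on2 ω hω
     have h2 : (φ (Fam.pt F ω)).2.2.2.2.1 = bb ω := by rw [← hφ ω hω]
     rw [e1 ω hω, e2 ω hω, h2]
     have e3 : (F.d ω (sg 2) - (s ω * al ω + kk ω) * F.d ω (sg 0)) -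
         s ω * (F.d ω (sg 1) - al ω * F.d ω (sg 0)) - bb ω =
         F.d ω (sg 2) - s ω * F.d ω (sg 1) - kk ω * F.d ω (sg 0) - bb ω := by ring
     rw [e3]
     exact h1
   · rw [e1 ω hω]
     exact (hF.an1 ω hω).trans (pw (by omega))
   · rw [e1 ω hω, e2 ω hω]
     have e3 : s ω * al ω + kk ω - s ω * al ω - t' ω = kk ω - t' ω := by ring
     rw [e3]
     exact (hF.an2 ω hω).trans (pw (by omega))

/-- The contexts are functions of the line and the window. -/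
theorem LL_hfr (hF : Pool.S6HF.HFr F A sg N w₀ Δ r V₀ H X Va Rt Pu PN a t s a' t' al nu kk bb)
    {i : ℕ} (hi : i ≤ N) (q : ℕ) {ω ω' : F.Ω}
    (h : slam F (fw w₀ Δ i) ω = slam F (fw w₀ Δ i) ω') :
    LL F sg (fw w₀ Δ i) q (fv V₀ r i) H X (a i) s (t i) ω =
      LL F sg (fw w₀ Δ i) q (fv V₀ r i) H X (a i) s (t i) ω' := by
  have hfr : fr sg (a i) s (t i) ω = fr sg (a i) s (t i) ω' := by
    obtain ⟨g1, g2, g3⟩ := hF.fn i hi ω ω' h
    unfold fr
    rw [g1, g2, g3]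
  have h1 := Box.label_det F (g := fw w₀ Δ i) (k := fun j => cv q (fv V₀ r i) H j + fw w₀ Δ i)
    (c := cv q (fv V₀ r i) H) (M := fr sg (a i) s (t i)) (l_slam h) (T1_slam h) hfr (Z_slam h)
  refine Prod.ext ?_ h1.1
  show Pool.S6N.blk F sg (fw w₀ Δ i) q (fv V₀ r i) H X (a i) s (t i) ω =
    Pool.S6N.blk F sg (fw w₀ Δ i) q (fv V₀ r i) H X (a i) s (t i) ω'
  unfold blk
  rw [h1.2.1, h1.2.2]

end one

end Pool.S6H

namespace Pool.S6C

open Finset Real
open Pool.Agent.H49.Ent Pool.Agent.H32.Dense Pool.STK Pool.KA Pool.KSAT Pool.K2S Pool.PB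
open Pool.KS6 hiding ind ind_nonneg
open Pool.FALL Pool.S6H

/-- **No closed planes and no closed directions** on large events, at one window. -/
theorem str_neg {S : PCl 3} {i₀ : Fin 3} {pe : ℝ} {rc : ℚ → ℝ} (hN : RcN S i₀ pe rc)
    (hpe0 : 0 ≤ pe) {u : ℚ} {e ρ₀ : ℝ} (he : 0 < e) (h0 : 0 ≤ rc u) (h3 : rc u < 1)
    (hR : PNum S (capS 1 (qRot i₀ 1 u)) ρ₀) (hρ : ρ₀ + e ≤ 1) {ε : ℝ} (hε : 0 < ε) (Bc C : ℝ)
    (hC : 0 ≤ C) :
    Clp S (fun J F A => ∀ G : F.Ω → Prop, Sub G A → ε * Pe F.p A ≤ Pe F.p G →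
      (∀ iu iN : Fin 3, (∀ j : Fin 3, j = i₀ ∨ j = iu ∨ j = iN) →
        ∀ (e' n' : (Fin 3 → ℤ) × (ℕ × F.ζ) → Fin 3 → ℝ) (sy : (Fin 3 → ℤ) × (ℕ × F.ζ) → ℝ)
          (s' c' : F.Ω → ℝ), ¬ RcF F G i₀ iu iN ⌊(pe + e) * J⌋₊ ⌊(u : ℝ) * J⌋₊
            ⌊(rc u + 3 * e) * J⌋₊ 1 Bc C e' n' sy s' c') ∧
      ¬ RotU i₀ (1 / 2 ^ ⌊(ρ₀ + e) * J⌋₊) (1 / 2 ^ ⌊(ρ₀ + e) * J⌋₊) (Fam.pt F)
        (slam F ⌊(u : ℝ) * J⌋₊) F.d G) := by
  obtain ⟨τ, hτ, J₁, hn⟩ := rc_neg (Bs := 1) (Bc := Bc) (pe' := pe + e) (x := rc u + 3 * e) hN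
    hpe0 (by linarith) (by linarith only [he]) h0 h3 hC
  obtain ⟨c, hc, J₂, hm⟩ := Pool.KS6.num_no (Pool.KS6.qRot_hered i₀ 1 u) hR he
  obtain ⟨τ', hτ'⟩ : ∃ τ', τ' = min τ c := ⟨_, rfl⟩
  have hτ0 : 0 < τ' := by rw [hτ']; exact lt_min hτ hc
  have t1 : τ' ≤ τ := by rw [hτ']; exact min_le_left _ _
  have t2 : τ' ≤ c := by rw [hτ']; exact min_le_right _ _
  obtain ⟨J₃, hJ₃⟩ := exists_nat_gt (-Real.log ε / τ')
  refine Clp.of hτ0 (max (max J₁ J₂) J₃) fun J hJ F A hS G hG hP => ?_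
  have hJ1 : J₁ ≤ J := ((le_max_left _ _).trans (le_max_left _ _)).trans hJ
  have hJ2 : J₂ ≤ J := ((le_max_right _ _).trans (le_max_left _ _)).trans hJ
  have hJ3 : (J₃ : ℝ) ≤ J := by exact_mod_cast (le_max_right _ _).trans hJ
  have hJ0 : (0 : ℝ) ≤ J := Nat.cast_nonneg J
  have hexp : Real.exp (-(τ' * J)) ≤ ε := by
    have := (hJ₃.trans_le hJ3).le
    rw [div_le_iff₀ hτ0] at this
    rw [← Real.exp_log hε]
    exact Real.exp_le_exp.2 (by linarith only [this])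
  have hPA := Pe_nonneg F.isLaw A
  have gen : ∀ κ, τ' ≤ κ → Real.exp (-(κ * J)) * Pe F.p A ≤ Pe F.p G := by
    intro κ hκ
    refine le_trans (mul_le_mul_of_nonneg_right (le_trans (Real.exp_le_exp.2 ?_) hexp) hPA) hP
    have := mul_le_mul_of_nonneg_right hκ hJ0
    linarith only [this]
  refine ⟨fun iu iN hi e' n' sy s' c' => hn J hJ1 F A G (S.mono t1 hS) hG (gen τ t1) iu iN hi
    e' n' sy s' c', fun hrot => hm J hJ2 F A (S.mono t2 hS) G hG (gen c t2) (Or.inr ⟨hρ, ?_⟩)⟩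
  have e1 : ⌊(1 : ℝ) * J⌋₊ = J := by rw [one_mul, Nat.floor_natCast]
  show RotU i₀ (1 / 2 ^ ⌊(ρ₀ + e) * J⌋₊) (1 / 2 ^ ⌊(ρ₀ + e) * J⌋₊) (ptq F ⌊(1 : ℝ) * J⌋₊)
    (slam F ⌊(u : ℝ) * J⌋₊) F.d G
  rw [e1]
  exact hrot

/-- **(E)** -/
theorem str_hfr : HStrStmt := by
  intro S a R h₁ i₀ c s₂ r' D σ hC act rc v₁ t e₁ pe P g wr v₀ v a₀ α L e G hN hZ N ul us x x₀ ε
    hx0 hx1 hex hxL hε
  have he := hZ.e0
  have hv := hZ.v0
  have heL := hZ.eL
  have hLG := hZ.LG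
  have hL0 : 0 < L := by linarith only [he, heL]
  have hx00 : 0 < x := by
    by_contra hcon
    push Not at hcon
    have : x₀ * x ≤ 0 := mul_nonpos_of_nonneg_of_nonpos hx0.le hcon
    linarith only [hex, he, this]
  have hvL : 0 ≤ v * L := by positivity
  have hG10 : 10 * L + 4 * (v * L) ≤ G := by linarith only [hLG]
  have g1 := hZ.g1
  have g7 := hZ.g7
  have g8 := hZ.g8
  have g9 := hZ.g9
  have g10 := hZ.g10
  have g11 := hZ.g11
  have gp1 := hZ.gp1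
  have gp2 := hZ.gp2
  have hve : 0 < v * e := mul_pos hv he
  -- the smaller exponent
  obtain ⟨y₀, hy₀⟩ : ∃ y₀, y₀ = x₀ / 2 := ⟨_, rfl⟩
  have hy0 : 0 < y₀ := by rw [hy₀]; linarith only [hx0]
  have hy1 : y₀ ≤ 1 / 2 := by rw [hy₀]; linarith only [hx1]
  have hyx : y₀ ≤ x₀ := by rw [hy₀]; linarith only [hx0]
  have hex' : 500 * e ≤ y₀ * x := by rw [hy₀]; linarith only [hex]
  obtain ⟨n₀, hn₀⟩ := exists_nat_gt ((1 + v) / e)
  exact by
   have hn0 : (0 : ℝ) < n₀ := lt_of_le_of_lt (by positivity) hn₀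
   have hm : (1 + v) * (1 / (n₀ : ℝ)) ≤ e := by
     rw [div_lt_iff₀ he] at hn₀
     rw [mul_one_div, div_le_iff₀ hn0]
     linarith only [hn₀]
   have hm0 : 0 < 1 / (n₀ : ℝ) := by positivity
   have hvm : 0 < v * (1 / (n₀ : ℝ)) := mul_pos hv hm0
   have hm1 : 1 / (n₀ : ℝ) ≤ e := by linarith only [hm, hvm]
   have hvm1 : v * (1 / (n₀ : ℝ)) ≤ e := by linarith only [hm, hm0]
   have hrw := hC.row 1 one_pos le_rfl hC.D1
   have hpe0 : 0 ≤ pe := by linarith only [heL, hLG, hvL, g8, g10, gp1, hm, hm0, hvm]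
   -- the numbers in the zone
   have zon : ∀ q : ℚ, |(q : ℝ) - wr| ≤ L → (0 ≤ rc q ∧ rc q + 3 * e < 1) ∧
       (σ 1).rot q + e ≤ 1 := by
     intro q hq
     obtain ⟨h1, h2, h3⟩ := hZ.aff q hq
     rw [abs_le] at h1 h2 h3 hq
     have h4 : v * ((q : ℝ) - wr) ≤ v * L := mul_le_mul_of_nonneg_left hq.2 hv.le
     have h5 : -(v * L) ≤ v * ((q : ℝ) - wr) := by
       have := mul_le_mul_of_nonneg_left hq.1 hv.le
       linarith only [this]
     refine ⟨⟨?_, ?_⟩, ?_⟩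
     · linarith only [heL, hLG, hvL, g10, g11, hm, hm0, hvm, h3, h5, h3.1]
     · linarith only [heL, hLG, hvL, g7, g8, g9, hm, hm0, hvm, h3, h4, h3.2]
     · linarith only [heL, hLG, hvL, g7, g8, g9, g11, hm, hm0, hvm, h1, h4, h1.2]
   have key : ∀ k < n₀ + 1, Clp S (fun J F A => |(((k : ℚ) / n₀ : ℚ) : ℝ) - wr| ≤ L →
       ∀ G : F.Ω → Prop, Sub G A → ε / 6 * Pe F.p A ≤ Pe F.p G →
       (∀ iu iN : Fin 3, (∀ j : Fin 3, j = i₀ ∨ j = iu ∨ j = iN) →
         ∀ (e' n' : (Fin 3 → ℤ) × (ℕ × F.ζ) → Fin 3 → ℝ) (sy : (Fin 3 → ℤ) × (ℕ × F.ζ) → ℝ)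
           (s' c' : F.Ω → ℝ), ¬ RcF F G i₀ iu iN ⌊(pe + e) * J⌋₊
             ⌊(((k : ℚ) / n₀ : ℚ) : ℝ) * J⌋₊ ⌊(rc ((k : ℚ) / n₀) + 3 * e) * J⌋₊ 1
             ((1 + 2 * 4) * (1 + 4) + 3) (3 * ((1 + 2 * 4) * (1 + 4)) + 4) e' n' sy s' c') ∧
       ¬ RotU i₀ (1 / 2 ^ ⌊((σ 1).rot ((k : ℚ) / n₀) + e) * J⌋₊)
         (1 / 2 ^ ⌊((σ 1).rot ((k : ℚ) / n₀) + e) * J⌋₊) (Fam.pt F)
         (slam F ⌊(((k : ℚ) / n₀ : ℚ) : ℝ) * J⌋₊) F.d G) := by
     intro k hk
     refine Clp.cnd fun hkL => ?_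
     have hk1 : ((k : ℚ) / n₀ : ℚ) ≤ 1 := by
       have h1 : (0 : ℚ) < n₀ := by exact_mod_cast hn0
       rw [div_le_one h1]
       exact_mod_cast (by omega : k ≤ n₀)
     have hk0 : (0 : ℚ) ≤ (k : ℚ) / n₀ := by positivity
     obtain ⟨⟨z1, z2⟩, z3⟩ := zon _ hkL
     exact str_neg hN hpe0 he z1 (by linarith only [hm, hm0, hvm, z2]) (hrw.rot _ hk0 hk1) z3 (by positivity) _ _
       (by norm_num)
   exact by
    have c2 : Clp S (fun J F A => 0 < Pe F.p A) :=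
      Clp.of one_pos 0 fun J _ F A hA => lt_of_lt_of_le (Real.exp_pos _) (hC.st _ _ _ _ hA).2.2.2
    obtain ⟨J₂, hJ₂⟩ := exists_nat_gt (24 / e)
    refine Clp.mono (J₂ := J₂ + 1) ((Clp.all (n₀ + 1) key).and c2) ?_
    rintro J hJ F A ⟨hk, hpos⟩ w₀ Δ r V₀ H X Va Rt sg a t s a' t' al nu kk bb hsg hL hX hF i hi q
    have hJ0' : (0 : ℝ) < J := by
      have : 0 < J := by omega
      exact_mod_cast this
    have hJ0 : (0 : ℝ) ≤ J := hJ0'.le
    have geJ : 24 < e * J := by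
      have h1 : (J₂ : ℝ) ≤ J := by exact_mod_cast (by omega : J₂ ≤ J)
      have := hJ₂.trans_le h1
      rw [div_lt_iff₀ he] at this
      linarith only [this]
    have hl : IsLaw (Pool.Agent.H49.Ent.cond F.p A True) := isLaw_cond F.isLaw hpos
    -- the windows
    have fwi : (fw w₀ Δ i : ℝ) = ((w₀ + i * Δ : ℕ) : ℝ) := rfl
    have fwN : fw w₀ Δ i ≤ w₀ + N * Δ := by
      unfold fw
      have := Nat.mul_le_mul_right Δ hi
      omega
    have w1 : (wr - L / 2) * J ≤ fw w₀ Δ i := by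
      refine hL.zl.trans ?_
      rw [fwi]
      push_cast
      have : (0 : ℝ) ≤ i * Δ := by positivity
      linarith only [this]
    have w2 : (fw w₀ Δ i : ℝ) ≤ (wr + L / 2) * J := by
      refine le_trans ?_ hL.zu
      exact_mod_cast fwN
    -- the rational window
    exact by
     obtain ⟨k, hkd⟩ : ∃ k : ℕ, k = ⌈(fw w₀ Δ i : ℝ) * n₀ / J⌉₊ := ⟨_, rfl⟩
     have k1 := Nat.le_ceil ((fw w₀ Δ i : ℝ) * n₀ / J)
     have k2 := Nat.ceil_lt_add_one (a := (fw w₀ Δ i : ℝ) * n₀ / J) (by positivity)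
     rw [← hkd] at k1 k2
     obtain ⟨u, hu⟩ : ∃ u : ℝ, u = (((k : ℚ) / n₀ : ℚ) : ℝ) := ⟨_, rfl⟩
     have hu' : u = (k : ℝ) / n₀ := by
       rw [hu]
       push_cast
       rfl
     have u1 : (fw w₀ Δ i : ℝ) ≤ u * J := by
       rw [div_le_iff₀ hJ0'] at k1
       rw [hu', div_mul_eq_mul_div, le_div_iff₀ hn0]
       linarith only [k1]
     have u2 : u * J ≤ fw w₀ Δ i + 1 / n₀ * J := by
       have h1 : (k : ℝ) * J ≤ fw w₀ Δ i * n₀ + J := by
         have := mul_le_mul_of_nonneg_right k2.le hJ0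
         rw [add_mul, div_mul_cancel₀ _ hJ0'.ne', one_mul] at this
         exact this
       rw [hu', div_mul_eq_mul_div, div_le_iff₀ hn0]
       have e2 : ((fw w₀ Δ i : ℝ) + 1 / n₀ * J) * n₀ = fw w₀ Δ i * n₀ + J := by
         field_simp
       rw [e2]
       exact h1
     have u3 : wr - L / 2 ≤ u := by
       have : (wr - L / 2) * J ≤ u * J := w1.trans u1
       exact le_of_mul_le_mul_right this hJ0'
     have u4 : u ≤ wr + L / 2 + 1 / n₀ := by
       have : u * J ≤ (wr + L / 2 + 1 / n₀) * J := by linarith only [w2, u2]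
       exact le_of_mul_le_mul_right this hJ0'
     have hkL : |(((k : ℚ) / n₀ : ℚ) : ℝ) - wr| ≤ L := by
       rw [← hu, abs_le]
       constructor <;> linarith
     exact by
      have hkn : k < n₀ + 1 := by
        have h1 : u < 1 := by linarith only [heL, hLG, hvL, g7, g8, g10, g11, hm, hm0, hvm, u4]
        rw [hu', div_lt_one hn0] at h1
        have : k < n₀ := by exact_mod_cast h1
        omega
      obtain ⟨⟨z1, z2⟩, z3⟩ := zon _ hkL
      obtain ⟨a1, a2, a3⟩ := hZ.aff _ hkL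
      rw [← hu, abs_le] at a1 a2 a3
      have hneg := hk k hkn hkL
      rw [← hu] at hneg
      have fle : fw w₀ Δ i ≤ ⌊u * J⌋₊ := Nat.le_floor u1
      have huJ : ⌊u * J⌋₊ ≤ J := by
        refine Nat.floor_le_of_le ?_
        calc u * J ≤ 1 * J := mul_le_mul_of_nonneg_right (by linarith only [heL, hLG, hvL, g7, g8, g10, g11, hm, hm0, hvm, u4]) hJ0
          _ = J := one_mul _
      -- products
      have T2 : v * (u * J) ≤ v * fw w₀ Δ i + e * J := by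
        have h2 := mul_le_mul_of_nonneg_left u2 hv.le
        have h3 := mul_le_mul_of_nonneg_right hvm1 hJ0
        linarith only [h2, h3]
      have T3 : 500 * (e * J) ≤ y₀ * (x * J) := by
        have := mul_le_mul_of_nonneg_right hex' hJ0
        linarith only [this]
      have fX := Nat.lt_floor_add_one (x * J)
      have fX' := Nat.floor_le (mul_nonneg hx00.le hJ0)
      rw [← hX] at fX fX'
      have T4 : 240 * (e * J) ≤ y₀ / 2 * X := by
        have h1 : y₀ / 2 * (x * J - 1) ≤ y₀ / 2 * X :=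
          mul_le_mul_of_nonneg_left (by linarith only [fX]) (by linarith only [hy0])
        linarith only [hx1, heL, hLG, hvL, g7, g8, g9, g10, g11, hy₀, hm, hm0, hvm, geJ, T3, h1]
      exact by
       have hLJ : 0 < L * J := mul_pos hL0 hJ0'
       have hvLJ : 0 ≤ v * L * J := by positivity
       have X1 : (X : ℝ) ≤ L / 4 * J := fX'.trans (mul_le_mul_of_nonneg_right hxL hJ0)
       have hGJ : 10 * (L * J) + 4 * (v * L * J) ≤ G * J := by
         have := mul_le_mul_of_nonneg_right hG10 hJ0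
         linarith only [this]
       have hw2 : v * (fw w₀ Δ i : ℝ) ≤ v * ((wr + L / 2) * J) := mul_le_mul_of_nonneg_left w2 hv.le
       have vti := hL.vt i hi
       have vti' := hL.vt' i hi
       have rti := hL.rt i hi
       have rti' := hL.rt' i hi
       have fvi : ((V₀ + i * r : ℕ) : ℝ) = (fv V₀ r i : ℝ) := rfl
       have fvi2 : ((V₀ + i * r + H : ℕ) : ℝ) = (fv V₀ r i : ℝ) + H := by
         rw [Nat.cast_add, fvi]
       rw [fvi, ← fwi] at vti vti'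
       rw [fvi2, ← fwi] at rti rti'
       have hvJ : 0 ≤ v * J := by positivity
       -- the statement
       refine NoStrip.anti hl hyx ?_
       rw [S2_eq_SW]
       by_contra hcon
       obtain ⟨e', n', b, sv, hW⟩ := win_of_hfr hF hl hi
       have gJ : (P - g) * J > G * J := mul_lt_mul_of_pos_right g8 hJ0'
       have peJ : ((P - g) + v₀ + G) * J < pe * J := mul_lt_mul_of_pos_right gp1 hJ0'
       have v0J : G * J < v₀ * J := mul_lt_mul_of_pos_right g10 hJ0'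
       have hHe : ⌊(pe + e) * J⌋₊ ≤ hPu pe G J := by
         refine Nat.floor_le_floor (mul_le_mul_of_nonneg_right ?_ hJ0)
         linarith only [heL, hLG, hvL, hm, hm0, hvm]
       have hHe2 : fv V₀ r i + X ≤ ⌊(pe + e) * J⌋₊ := by
         refine Nat.le_floor ?_
         push_cast
         linarith only [heL, hLG, hvL, g7, g8, g9, g10, g11, hm, hm0, hvm, geJ, hLJ, hvLJ, X1, hGJ, hw2, vti, gJ, peJ]
       exact by
        have hPN : fv V₀ r i + H + X ≤ hPN P wr G J := by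
          refine Nat.le_floor ?_
          push_cast
          linarith only [heL, hLG, hvL, g7, g8, g9, g10, g11, hm, hm0, hvm, geJ, hLJ, hvLJ, X1, hGJ, hw2, rti, gJ]
        have hr : ((⌊(rc ((k : ℚ) / n₀) + 3 * e) * J⌋₊ : ℕ) : ℝ) ≤
            fv V₀ r i + H + y₀ / 2 * X := by
          refine (Nat.floor_le (mul_nonneg (by linarith only [hm, hm0, hvm, z1]) hJ0)).trans ?_
          have h1 : rc ((k : ℚ) / n₀) + 3 * e ≤ (g - wr) + v * (u - wr) + 4 * e := by linarith only [a3, a3.2]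
          have h2 := mul_le_mul_of_nonneg_right h1 hJ0
          linarith only [heL, hLG, hvL, g7, g8, g9, g10, g11, hm, hm0, hvm, geJ, T2, T4, rti', h2]
        have hX7 : 2 * (1 + 4) * (2 : ℝ) ^ (y₀ * X) < 2 ^ X := by
          have hXb : (8 : ℝ) ≤ X := by
            have : y₀ / 2 * X ≤ 1 / 4 * X :=
              mul_le_mul_of_nonneg_right (by linarith only [hx1, hy₀]) (Nat.cast_nonneg X)
            linarith only [heL, hLG, hvL, g7, g8, g9, g10, g11, hm, hm0, hvm, geJ, T4, this]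
          have h1 : (2 : ℝ) ^ (y₀ * X) ≤ (2 : ℝ) ^ ((X : ℝ) - 4) := by
            refine Real.rpow_le_rpow_of_exponent_le (by norm_num) ?_
            have : y₀ * X ≤ 1 / 2 * X := mul_le_mul_of_nonneg_right hy1 (Nat.cast_nonneg X)
            linarith only [heL, hLG, hvL, g7, g8, g9, g10, g11, hm, hm0, hvm, geJ, T4, this]
          have h2 : (2 : ℝ) ^ ((X : ℝ) - 4) = 2 ^ X / 16 := by
            rw [Real.rpow_sub (by norm_num), Real.rpow_natCast]
            norm_num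
          rw [h2] at h1
          have h3 : (0 : ℝ) < 2 ^ X := by positivity
          linarith only [h1, h3]
        obtain ⟨E, hE1, hE2, hE3⟩ := str_fam (v := ⌊u * J⌋₊) hW
          (LL F sg (fw w₀ Δ i) q (fv V₀ r i) H X (a i) s (t i))
          (fun ω ω' _ _ h => LL_hfr hF hi q h) hy0 hy1 hε hX7 hHe hHe2 hPN hr fle huJ hcon
        obtain ⟨n1, n2⟩ := hneg E hE1 hE2
        rcases hE3 with ⟨iu, iN, hii, e₂, n₂, sy, s', c', hR⟩ | ⟨-, e₂, n₂, ζ, hO, hζ⟩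
        · rw [hsg] at hii hR
          exact n1 iu iN hii e₂ n₂ sy s' c' (hR.win fle huJ)
        · refine n2 ⟨e₂, n₂, ζ, ?_, ?_⟩
          · intro ω hω j
            have := hO ω hω j
            rw [hsg] at this
            refine this.trans ?_
            refine one_div_le_one_div_of_le (by positivity) (pow_le_pow_right₀ (by norm_num) ?_)
            refine Nat.floor_le_floor (mul_le_mul_of_nonneg_right ?_ hJ0)
            have h1 : v * (u - wr) ≤ v * L := mul_le_mul_of_nonneg_left (by linarith only [heL, hm, hm0, hvm, u4]) hv.le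
            linarith only [heL, hLG, hvL, g8, gp1, hm, hm0, hvm, a1, h1, a1.2]
          · intro ω hω j
            refine (hζ ω hω j).trans ?_
            have h1 : ((1 + 4) * (2 * 4 + 1) + 2 * 4 : ℝ) * (2 : ℝ) ^ (-(y₀ / 2 * X)) /
                2 ^ fv V₀ r i ≤ (2 : ℝ) ^ (6 + -(y₀ / 2 * X) - (fv V₀ r i : ℝ)) := by
              rw [Real.rpow_sub (by norm_num), Real.rpow_add (by norm_num), Real.rpow_natCast]
              refine div_le_div_of_nonneg_right (mul_le_mul_of_nonneg_right ?_ (by positivity))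
                (by positivity)
              norm_num
            refine h1.trans ?_
            have h2 : (1 : ℝ) / 2 ^ ⌊((σ 1).rot ((k : ℚ) / n₀) + e) * J⌋₊ =
                (2 : ℝ) ^ (-(⌊((σ 1).rot ((k : ℚ) / n₀) + e) * J⌋₊ : ℝ)) := by
              rw [Real.rpow_neg (by norm_num), Real.rpow_natCast, one_div]
            rw [h2]
            refine Real.rpow_le_rpow_of_exponent_le (by norm_num) ?_
            have hrot0 : 0 ≤ (σ 1).rot ((k : ℚ) / n₀) + e := by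
              have h5 : -(v * L) ≤ v * (u - wr) := by
                have := mul_le_mul_of_nonneg_left (show -L ≤ u - wr by linarith only [heL, hm, hm0, hvm, u3]) hv.le
                linarith only [this]
              linarith only [heL, hLG, hvL, g10, hm, hm0, hvm, a1, h5, a1.1]
            have h3 := Nat.floor_le (mul_nonneg hrot0 hJ0)
            have h4 : (σ 1).rot ((k : ℚ) / n₀) + e ≤ v₀ + v * (u - wr) + 2 * e := by linarith only [a1, a1.2]
            have h5 := mul_le_mul_of_nonneg_right h4 hJ0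
            linarith only [heL, hLG, hvL, g7, g8, g9, g10, g11, hm, hm0, hvm, geJ, T2, T4, vti', h3, h5]

end Pool.S6C
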