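import Pool.Agent.H1.S6H.Str
import Pool.Agent.H20.DPC.Frm
import Pool.Agent.H46.S6.DIa
import Pool.Agent.H75.S6C.Rot

/-!
# The double plateau, case (alpha), class half: no strips on typical lines
-/

set_option autoImplicit false

namespace Pool.S6H

open Finset Real
open Pool.Agent.H49.Ent Pool.Agent.H32.Dense Pool.STK Pool.KA Pool.KSAT Pool.K2S Pool.PB
open Pool.KS6 hiding ind ind_nonneg
open Pool.PLN Pool.COP Pool.S6C

section pure

variable {Ω Λ : Type} [Fintype Ω] {P : Ω → ℝ}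

theorem Pr_ge_one (hP : IsLaw P) {E : Set Ω} (h : ∀ ω, 0 < P ω → ω ∈ E) :
    1 ≤ Pool.KAF.Pr P E := by
  classical
  rw [show Pool.KAF.Pr P E = law P (fun ω => ω ∈ E) True from rfl, law_ind, ← hP.sum_one]
  refine Finset.sum_le_sum fun ω _ => ?_
  rcases (hP.nonneg ω).eq_or_lt with h0 | h0
  · rw [← h0, zero_mul]
  · rw [ind_of (h ω h0), mul_one]

/-- A strip which contains all slopes. -/
theorem strip_full (hP : IsLaw P) (L : Ω → Λ) (S : Ω → Fin 2 → ℝ) {X : ℕ} {x₀ : ℝ}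
    (n : Λ → Fin 2 → ℝ) (z : Λ → ℝ)
    (h : ∀ ω, 0 < P ω → ((∀ i, |n (L ω) i| ≤ 1) ∧ ∃ i, |n (L ω) i| = 1) ∧
      |∑ i, n (L ω) i * S ω i - z (L ω)| < (2 : ℝ) ^ (-(x₀ * X))) :
    ¬ NoStrip P L S X x₀ (1 / 2) := by
  intro hcon
  have h1 := Pr_ge_one hP (E := {ω | ∃ (n : Fin 2 → ℝ) (z : ℝ), (∀ i, |n i| ≤ 1) ∧
    (∃ i, |n i| = 1) ∧ 1 / 2 < Pool.KAF.Pr (Pool.Agent.H49.Ent.cond P L (L ω))
      {ρ | |∑ i, n i * S ρ i - z| < (2 : ℝ) ^ (-(x₀ * X))}}) (by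
    intro ω hω
    refine ⟨n (L ω), z (L ω), (h ω hω).1.1, (h ω hω).1.2, ?_⟩
    have h2 : IsLaw (Pool.Agent.H49.Ent.cond P L (L ω)) :=
      ⟨cond_nonneg hP.nonneg _ _, sum_cond P L (law_pos hP.nonneg L hω).ne'⟩
    have h3 := Pr_ge_one h2
      (E := {ρ | |∑ i, n (L ω) i * S ρ i - z (L ω)| < (2 : ℝ) ^ (-(x₀ * X))}) (by
      intro ρ hρ
      obtain ⟨h4, h5⟩ := (cond_pos_iff hP.nonneg L (L ω) ρ).1 hρ
      have h6 := (h ρ h4).2
      rw [h5] at h6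
      exact h6)
    linarith only [h3])
  have h7 := h1.trans hcon
  norm_num at h7

/-- Strips with a constant coefficient. -/
theorem nstr_of (hP : IsLaw P) (L : Ω → Λ) (S : Ω → Fin 2 → ℝ) {X : ℕ} {x₀ x₁ K ε : ℝ}
    (hK : 1 ≤ K) (hS : ∀ ω, 0 < P ω → ∀ i, |S ω i| ≤ K)
    (h1 : (2 : ℝ) ^ (-(x₀ * X)) ≤ 1 / 2)
    (h2 : 4 * K * (2 : ℝ) ^ (-(x₀ * X)) ≤ (2 : ℝ) ^ (-(x₁ * X)))
    (h : NoStrip P L S X x₁ ε) : Pool.PLV.NStr P L S ((2 : ℝ) ^ (-(x₀ * X))) ε := by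
  classical
  obtain ⟨δ, hδ⟩ : ∃ δ : ℝ, δ = (2 : ℝ) ^ (-(x₀ * X)) := ⟨_, rfl⟩
  rw [← hδ] at h1 h2 ⊢
  have hδ0 : 0 < δ := by rw [hδ]; positivity
  have key : Pool.KAF.Pr P {ω | ∃ n : Fin 3 → ℝ, (∀ i, |n i| ≤ 1) ∧ (∃ i, |n i| = 1) ∧
      1 / 2 < Pe (Pool.Agent.H49.Ent.cond P L (L ω))
        (fun ρ => |n 0 + ∑ i : Fin 2, n i.succ * S ρ i| < δ)} ≤ ε := by
    refine le_trans (Pool.KAF.Pr_mono hP.nonneg fun ω hω hE => ?_) h
    obtain ⟨n, hn1, hn2, hn3⟩ := hE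
    obtain ⟨m, hm⟩ : ∃ m, m = max |n 1| |n 2| := ⟨_, rfl⟩
    have m1 : |n 1| ≤ m := by rw [hm]; exact le_max_left _ _
    have m2 : |n 2| ≤ m := by rw [hm]; exact le_max_right _ _
    have hsum : ∀ ρ, ∑ i : Fin 2, n i.succ * S ρ i = n 1 * S ρ 0 + n 2 * S ρ 1 := fun ρ => by
      rw [Fin.sum_univ_two]
      rfl
    have hmK : 1 / (4 * K) ≤ m := by
      by_contra hc
      push Not at hc
      have h4 : 1 / (4 * K) ≤ 1 / 4 :=
        one_div_le_one_div_of_le (by norm_num) (by linarith only [hK])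
      have h5 : |n 0| = 1 := by
        obtain ⟨i, hi⟩ := hn2
        fin_cases i
        · exact hi
        · have : |n 1| = 1 := hi
          linarith only [h1, hδ0, m1, hc, h4, this]
        · have : |n 2| = 1 := hi
          linarith only [h1, hδ0, m2, hc, h4, this]
      have h6 : Pe (Pool.Agent.H49.Ent.cond P L (L ω))
          (fun ρ => |n 0 + ∑ i : Fin 2, n i.succ * S ρ i| < δ) ≤ 0 := by
        rw [Pe_ind]
        refine Finset.sum_nonpos fun ρ _ => ?_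
        rcases (cond_nonneg hP.nonneg L (L ω) ρ).eq_or_lt with h0 | h0
        · rw [← h0, zero_mul]
        · have h7 := ((cond_pos_iff hP.nonneg L (L ω) ρ).1 h0).1
          rw [ind_not, mul_zero]
          intro h8
          rw [hsum] at h8
          have h9 : |n 1 * S ρ 0 + n 2 * S ρ 1| ≤ 1 / 2 := by
            refine (abs_add_le _ _).trans ?_
            rw [abs_mul, abs_mul]
            have g1 : |n 1| * |S ρ 0| ≤ 1 / (4 * K) * K :=
              mul_le_mul (m1.trans hc.le) (hS ρ h7 0) (abs_nonneg _) (by positivity)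
            have g2 : |n 2| * |S ρ 1| ≤ 1 / (4 * K) * K :=
              mul_le_mul (m2.trans hc.le) (hS ρ h7 1) (abs_nonneg _) (by positivity)
            have g3 : 1 / (4 * K) * K = 1 / 4 := by field_simp
            linarith only [g1, g2, g3]
          have h10 : |n 0| ≤ |n 0 + (n 1 * S ρ 0 + n 2 * S ρ 1)| +
              |n 1 * S ρ 0 + n 2 * S ρ 1| := by
            have := abs_sub (n 0 + (n 1 * S ρ 0 + n 2 * S ρ 1)) (n 1 * S ρ 0 + n 2 * S ρ 1)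
            rwa [add_sub_cancel_right] at this
          linarith only [h1, h5, h8, h9, h10]
      linarith only [h1, hδ0, hn3, h6]
    have hm0 : 0 < m := lt_of_lt_of_le (by positivity) hmK
    refine ⟨fun i => n i.succ / m, -(n 0) / m, fun i => ?_, ?_, lt_of_lt_of_le hn3 ?_⟩
    · rw [abs_div, abs_of_pos hm0, div_le_one hm0]
      fin_cases i
      · exact m1
      · exact m2
    · rcases max_choice |n 1| |n 2| with g | g
      · refine ⟨0, ?_⟩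
        show |n 1 / m| = 1
        rw [abs_div, abs_of_pos hm0, hm, g]
        rw [hm, g] at hm0
        exact div_self hm0.ne'
      · refine ⟨1, ?_⟩
        show |n 2 / m| = 1
        rw [abs_div, abs_of_pos hm0, hm, g]
        rw [hm, g] at hm0
        exact div_self hm0.ne'
    · refine Pool.KAF.Pr_mono (E := {ρ | |n 0 + ∑ i : Fin 2, n i.succ * S ρ i| < δ})
        (fun v => cond_nonneg hP.nonneg L _ v) fun ρ _ hρ => ?_
      have hρ' : |n 0 + ∑ i : Fin 2, n i.succ * S ρ i| < δ := hρ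
      show |∑ i : Fin 2, n i.succ / m * S ρ i - -(n 0) / m| < (2 : ℝ) ^ (-(x₁ * X))
      have e1 : ∑ i : Fin 2, n i.succ / m * S ρ i - -(n 0) / m =
          (n 0 + ∑ i : Fin 2, n i.succ * S ρ i) / m := by
        rw [Fin.sum_univ_two, Fin.sum_univ_two]
        field_simp
        ring
      rw [e1, abs_div, abs_of_pos hm0]
      refine lt_of_lt_of_le ?_ h2
      rw [div_lt_iff₀ hm0]
      have g1 : 1 ≤ 4 * K * m := by
        rw [div_le_iff₀ (by positivity)] at hmK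
        linarith only [hmK]
      calc |n 0 + ∑ i : Fin 2, n i.succ * S ρ i| < δ := hρ'
        _ = 1 * δ := (one_mul _).symm
        _ ≤ 4 * K * m * δ := mul_le_mul_of_nonneg_right g1 hδ0.le
        _ = 4 * K * δ * m := by ring
  exact key

end pure

/-- Two lines with different times. -/
theorem close2 {A' A'' x' x'' e e' n n' r r' δ : ℝ} (h1 : |A' - e * x' - n| ≤ r)
    (h2 : |A'' - e * x'' - n| ≤ r) (h3 : |A' - e' * x' - n'| ≤ r')
    (h4 : |A'' - e' * x'' - n'| ≤ r') (hδ : 0 < δ) (h5 : δ ≤ |x' - x''|) :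
    |e - e'| ≤ (2 * r + 2 * r') / δ := by
  rw [le_div_iff₀ hδ]
  have e1 : (e - e') * (x' - x'') = ((A' - e' * x' - n') - (A'' - e' * x'' - n')) -
      ((A' - e * x' - n) - (A'' - e * x'' - n)) := by ring
  have e2 : |e - e'| * |x' - x''| ≤ 2 * r + 2 * r' := by
    rw [← abs_mul, e1]
    refine (abs_sub _ _).trans ?_
    have g1 := abs_sub (A' - e' * x' - n') (A'' - e' * x'' - n')
    have g2 := abs_sub (A' - e * x' - n) (A'' - e * x'' - n)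
    linarith only [h1, h2, h3, h4, g1, g2]
  exact (mul_le_mul_of_nonneg_left h5 (abs_nonneg _)).trans e2

theorem num_q (c : ℝ) (k q : ℕ) :
    c * (1 / 2 ^ (k + q + 5)) / (1 / 2 ^ (q + 1)) = c / 16 / 2 ^ k := by
  rw [show k + q + 5 = k + (q + 1) + 4 by ring, pow_add, pow_add]
  field_simp
  norm_num

theorem one_le_div {k l : ℕ} (h : k ≤ l) : (1 : ℝ) / 2 ^ l ≤ 1 / 2 ^ k :=
  one_div_le_one_div_of_le (by positivity) (pow_le_pow_right₀ (by norm_num) h)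

/-- The window of the double plateau. -/
theorem win_frm {J : ℕ} {F : Fam 3 J} {B E : F.Ω → Prop} {sg : Fin 3 → Fin 3}
    {wl w V H kap Hu HN X lp q He : ℕ} {al nu kk bb : (Fin 3 → ℤ) × (ℕ × F.ζ) → ℝ}
    {a s t a₁ s₁ t₁ : F.Ω → ℝ} (hB : Pool.DPC20.Frm F B sg wl V kap Hu HN al nu kk bb a s t)
    (hE : Sub E B) (hl : IsLaw (Pool.Agent.H49.Ent.cond F.p E True))
    (hfn : ∀ ω ω', slam F w ω = slam F w ω' → a₁ ω = a₁ ω' ∧ s₁ ω = s₁ ω' ∧ t₁ ω = t₁ ω')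
    (heq : ∀ ω, E ω → a ω = a₁ ω ∧ s ω = s₁ ω ∧ t ω = t₁ ω)
    {ef n : (Fin 3 → ℤ) × (ℕ × F.ζ) → Fin 3 → ℝ}
    (hL : OnL (sg 0) (1 / 2 ^ lp) (Fam.pt F) F.d E ef n)
    (hb : ∀ ω, E ω → ∀ j, |ef (Fam.pt F ω) j| ≤ 5 / 4)
    (hsp : ∀ ω, E ω → ∃ ω' ω'', E ω' ∧ E ω'' ∧ Fam.pt F ω' = Fam.pt F ω ∧
      Fam.pt F ω'' = Fam.pt F ω ∧ 1 / 2 ^ (q + 1) ≤ |F.d ω' (sg 0) - F.d ω'' (sg 0)|)
    (n1 : V + X + q + 5 ≤ Hu) (n2 : V + H + X + q + 5 ≤ HN) (n3 : He + q + 12 ≤ lp)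
    (n4 : V + X ≤ He) (n5 : V + H ≤ kap) (n6 : q + 6 ≤ He) :
    ∃ (PN : ℕ) (e' n' : (Fin 3 → ℤ) × (ℕ × F.ζ) → Fin 3 → ℝ)
      (b sv : (Fin 3 → ℤ) × (ℕ × F.ζ) → ℝ), V + H + X ≤ PN ∧
      WIn F E sg w V H X He PN 3 4 a₁ s₁ t₁ (fun ω => al (Fam.pt F ω))
        (fun ω => t₁ ω + kk (Fam.pt F ω)) e' n' b sv := by
  classical
  obtain ⟨φ, hφ⟩ := exists_fun B (Fam.pt F) (fun ω => (s ω, t ω)) (by
    intro ω ω' hω hω' h
    obtain ⟨-, g1, g2⟩ := hB.vdt ω ω' hω hω' h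
    rw [g1, g2])
  have n01 : sg 1 ≠ sg 0 := fun e => by have := hB.bij.1 e; omega
  have n02 : sg 2 ≠ sg 0 := fun e => by have := hB.bij.1 e; omega
  have n12 : sg 2 ≠ sg 1 := fun e => by have := hB.bij.1 e; omega
  have hij : ∀ j : Fin 3, j = sg 0 ∨ j = sg 1 ∨ j = sg 2 := by
    intro j
    obtain ⟨i, rfl⟩ := hB.bij.2 j
    fin_cases i <;> simp
  obtain ⟨sv, hsv⟩ : ∃ sv : (Fin 3 → ℤ) × (ℕ × F.ζ) → ℝ, sv = fun v => (φ v).1 := ⟨_, rfl⟩
  obtain ⟨tv, htv⟩ : ∃ tv : (Fin 3 → ℤ) × (ℕ × F.ζ) → ℝ, tv = fun v => (φ v).2 := ⟨_, rfl⟩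
  have hvs : ∀ ω, E ω → s₁ ω = sv (Fam.pt F ω) := fun ω hω => by
    rw [← (heq ω hω).2.1, hsv]
    have := hφ ω (hE ω hω)
    simp only
    rw [← this]
  have hvt : ∀ ω, E ω → t₁ ω = tv (Fam.pt F ω) := fun ω hω => by
    rw [← (heq ω hω).2.2, htv]
    have := hφ ω (hE ω hω)
    simp only
    rw [← this]
  have on1 : ∀ ω, E ω → |F.d ω (sg 1) - al (Fam.pt F ω) * F.d ω (sg 0) - nu (Fam.pt F ω)| ≤
      4 * (1 / 2 ^ Hu) := fun ω hω => by
    have := hB.on1 ω (hE ω hω)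
    rwa [div_eq_mul_one_div] at this
  have on2 : ∀ ω, E ω → |F.d ω (sg 2) - s₁ ω * F.d ω (sg 1) - t₁ ω * F.d ω (sg 0) -
      bb (Fam.pt F ω) - kk (Fam.pt F ω) * F.d ω (sg 0)| ≤ 4 * (1 / 2 ^ HN) := fun ω hω => by
    have := hB.on2 ω (hE ω hω)
    rwa [(heq ω hω).2.1, (heq ω hω).2.2, div_eq_mul_one_div] at this
  have bs : ∀ ω, E ω → |s₁ ω| ≤ 4 := fun ω hω => by
    rw [← (heq ω hω).2.1]
    exact (hB.bd ω (hE ω hω)).2.1
  have ca : ∀ ω, E ω → |al (Fam.pt F ω) - a₁ ω| ≤ 3 / 2 ^ V := fun ω hω => by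
    rw [← (heq ω hω).1]
    exact hB.an1 ω (hE ω hω)
  have ct : ∀ ω, E ω → |t₁ ω + kk (Fam.pt F ω) - t₁ ω| ≤ 3 / 2 ^ (V + H) := fun ω hω => by
    rw [add_sub_cancel_left]
    refine (hB.an2 ω (hE ω hω)).trans ((one_le_div n5).trans ?_)
    exact div_le_div_of_nonneg_right (by norm_num) (by positivity)
  have pq : (0 : ℝ) < 1 / 2 ^ (q + 1) := by positivity
  -- the direction in the coordinate `sg 1`
  have an1 : ∀ ω, E ω → |ef (Fam.pt F ω) (sg 1) - al (Fam.pt F ω)| ≤ 3 / 2 ^ (V + X) := by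
    intro ω hω
    obtain ⟨ω', ω'', b1, b2, b3, b4, b5⟩ := hsp ω hω
    have a1 := hL ω' b1 (sg 1)
    have a2 := hL ω'' b2 (sg 1)
    have a3 := on1 ω' b1
    have a4 := on1 ω'' b2
    rw [b3] at a1 a3
    rw [b4] at a2 a4
    refine (close2 a1 a2 a3 a4 pq b5).trans ?_
    have k1 : (1 : ℝ) / 2 ^ lp ≤ 1 / 2 ^ (V + X + q + 5) := one_le_div (by omega)
    have k2 : (1 : ℝ) / 2 ^ Hu ≤ 1 / 2 ^ (V + X + q + 5) := one_le_div n1
    have k3 := num_q 10 (V + X) q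
    calc (2 * (1 / 2 ^ lp) + 2 * (4 * (1 / 2 ^ Hu))) / (1 / 2 ^ (q + 1)) ≤
          10 * (1 / 2 ^ (V + X + q + 5)) / (1 / 2 ^ (q + 1)) :=
          div_le_div_of_nonneg_right (by linarith only [k1, k2]) pq.le
      _ = 10 / 16 / 2 ^ (V + X) := k3
      _ ≤ 3 / 2 ^ (V + X) := div_le_div_of_nonneg_right (by norm_num) (by positivity)
  by_cases hc : He + 6 ≤ HN
  · -- the planes are thin
    obtain ⟨e', he'⟩ : ∃ e' : (Fin 3 → ℤ) × (ℕ × F.ζ) → Fin 3 → ℝ, e' = fun v j =>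
        if j = sg 0 then 1 else if j = sg 1 then ef v (sg 1) else
          sv v * ef v (sg 1) + (tv v + kk v) := ⟨_, rfl⟩
    obtain ⟨n', hn'⟩ : ∃ n' : (Fin 3 → ℤ) × (ℕ × F.ζ) → Fin 3 → ℝ, n' = fun v j =>
        if j = sg 0 then 0 else if j = sg 1 then n v (sg 1) else
          sv v * n v (sg 1) + bb v := ⟨_, rfl⟩
    have e0 : ∀ v, e' v (sg 0) = 1 := fun v => by rw [he']; simp only [if_pos]
    have e1 : ∀ v, e' v (sg 1) = ef v (sg 1) := fun v => by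
      rw [he']
      simp only [if_neg n01, if_pos]
    have e2 : ∀ ω, E ω → e' (Fam.pt F ω) (sg 2) = s₁ ω * ef (Fam.pt F ω) (sg 1) +
        (t₁ ω + kk (Fam.pt F ω)) := fun ω hω => by
      rw [he', hvs ω hω, hvt ω hω]
      simp only [if_neg n02, if_neg n12]
    have m0 : ∀ v, n' v (sg 0) = 0 := fun v => by rw [hn']; simp only [if_pos]
    have m1 : ∀ v, n' v (sg 1) = n v (sg 1) := fun v => by
      rw [hn']
      simp only [if_neg n01, if_pos]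
    have m2 : ∀ ω, E ω → n' (Fam.pt F ω) (sg 2) = s₁ ω * n (Fam.pt F ω) (sg 1) +
        bb (Fam.pt F ω) := fun ω hω => by
      rw [hn', hvs ω hω]
      simp only [if_neg n02, if_neg n12]
    have g1 : (1 : ℝ) / 2 ^ HN ≤ 1 / 2 ^ (He + 6) := one_le_div hc
    have g2 : (1 : ℝ) / 2 ^ lp ≤ 1 / 2 ^ (He + 6) := one_le_div (by omega)
    have g3 : (1 : ℝ) / 2 ^ (He + 6) = 1 / 2 ^ He / 64 := by
      rw [pow_add]
      field_simp
      norm_num
    have g4 : (0 : ℝ) < 1 / 2 ^ He := by positivity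
    have line2 : ∀ ω, E ω → |F.d ω (sg 2) - e' (Fam.pt F ω) (sg 2) * F.d ω (sg 0) -
        n' (Fam.pt F ω) (sg 2)| ≤ 1 / 8 * (1 / 2 ^ He) := by
      intro ω hω
      rw [e2 ω hω, m2 ω hω]
      have f1 : F.d ω (sg 2) - (s₁ ω * ef (Fam.pt F ω) (sg 1) + (t₁ ω + kk (Fam.pt F ω))) *
          F.d ω (sg 0) - (s₁ ω * n (Fam.pt F ω) (sg 1) + bb (Fam.pt F ω)) =
          (F.d ω (sg 2) - s₁ ω * F.d ω (sg 1) - t₁ ω * F.d ω (sg 0) -
            bb (Fam.pt F ω) - kk (Fam.pt F ω) * F.d ω (sg 0)) +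
          s₁ ω * (F.d ω (sg 1) - ef (Fam.pt F ω) (sg 1) * F.d ω (sg 0) -
            n (Fam.pt F ω) (sg 1)) := by ring
      rw [f1]
      refine (abs_add_le _ _).trans ?_
      rw [abs_mul]
      have f2 : |s₁ ω| * |F.d ω (sg 1) - ef (Fam.pt F ω) (sg 1) * F.d ω (sg 0) -
            n (Fam.pt F ω) (sg 1)| ≤ 4 * (1 / 2 ^ lp) :=
        mul_le_mul (bs ω hω) (hL ω hω (sg 1)) (abs_nonneg _) (by norm_num)
      have f3 := on2 ω hω
      linarith only [g1, g2, g3, f2, f3]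
    refine ⟨HN - 2, e', n', bb, sv, by omega, hij, hl, by norm_num, by norm_num, hfn, ca, ct, bs,
      hvs, fun ω hω j => ?_, fun ω hω j => ?_, fun ω hω => ?_, fun ω hω => ?_, fun ω hω => ?_⟩
    · rcases hij j with h | h | h
      · rw [h, e0, m0, one_mul, sub_self, sub_zero, abs_zero]
        positivity
      · rw [h, e1, m1]
        refine (hL ω hω (sg 1)).trans ?_
        linarith only [g2, g3, g4]
      · rw [h]
        refine (line2 ω hω).trans ?_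
        linarith only [g4]
    · rcases hij j with h | h | h
      · rw [h, e0]
        norm_num
      · rw [h, e1]
        exact (hb ω hω (sg 1)).trans (by norm_num)
      · rw [h]
        obtain ⟨ω', ω'', b1, b2, b3, b4, b5⟩ := hsp ω hω
        have a1 := line2 ω' b1
        have a2 := line2 ω'' b2
        have a3 := hL ω' b1 (sg 2)
        have a4 := hL ω'' b2 (sg 2)
        rw [b3] at a1 a3
        rw [b4] at a2 a4
        have k0 := close2 a1 a2 a3 a4 pq b5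
        have k1 : (1 : ℝ) / 2 ^ He ≤ 1 / 2 ^ (0 + q + 5) := one_le_div (by omega)
        have k2 : (1 : ℝ) / 2 ^ lp ≤ 1 / 2 ^ (0 + q + 5) := one_le_div (by omega)
        have k3 := num_q (9 / 4) 0 q
        have k4 : (2 * (1 / 8 * (1 / 2 ^ He)) + 2 * (1 / 2 ^ lp)) / (1 / 2 ^ (q + 1)) ≤
            (9 / 4 : ℝ) * (1 / 2 ^ (0 + q + 5)) / (1 / 2 ^ (q + 1)) :=
          div_le_div_of_nonneg_right (by linarith only [g2, g3, g4, k1]) pq.le
        rw [k3] at k4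
        norm_num at k4
        have k5 := hb ω hω (sg 2)
        have k6 := abs_sub_abs_le_abs_sub (e' (Fam.pt F ω) (sg 2)) (ef (Fam.pt F ω) (sg 2))
        have k7 : (2 * (1 / 8 * (1 / 2 ^ He)) + 2 * (1 / 2 ^ lp)) / (1 / 2 ^ (q + 1)) ≤
            (1 / 4 : ℝ) := by
          refine le_trans (div_le_div_of_nonneg_right (b := (9 / 4 : ℝ) * (1 / 2 ^ (0 + q + 5)))
            (by linarith only [g2, g3, g4, k1]) pq.le) ?_
          rw [k3]
          norm_num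
        linarith only [k0, k5, k6, k7]
    · rw [e1, e2 ω hω]
      have f1 : (F.d ω (sg 2) - (s₁ ω * ef (Fam.pt F ω) (sg 1) + (t₁ ω + kk (Fam.pt F ω))) *
          F.d ω (sg 0)) - s₁ ω * (F.d ω (sg 1) - ef (Fam.pt F ω) (sg 1) * F.d ω (sg 0)) -
          bb (Fam.pt F ω) = F.d ω (sg 2) - s₁ ω * F.d ω (sg 1) - t₁ ω * F.d ω (sg 0) -
            bb (Fam.pt F ω) - kk (Fam.pt F ω) * F.d ω (sg 0) := by ring
      rw [f1]
      refine (on2 ω hω).trans (le_of_eq ?_)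
      have f2 : (2 : ℝ) ^ HN = 2 ^ (HN - 2) * 4 := by
        have : HN = HN - 2 + 2 := by omega
        conv_lhs => rw [this, pow_add]
        norm_num
      rw [f2]
      field_simp
    · rw [e1]
      exact an1 ω hω
    · rw [e1, e2 ω hω]
      have f1 : s₁ ω * ef (Fam.pt F ω) (sg 1) + (t₁ ω + kk (Fam.pt F ω)) -
          s₁ ω * ef (Fam.pt F ω) (sg 1) - (t₁ ω + kk (Fam.pt F ω)) = 0 := by ring
      rw [f1, abs_zero]
      positivity
  · -- the fans are thin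
    push Not at hc
    have line2 : ∀ ω, E ω → |(F.d ω (sg 2) - s₁ ω * F.d ω (sg 1)) -
        (ef (Fam.pt F ω) (sg 2) - s₁ ω * ef (Fam.pt F ω) (sg 1)) * F.d ω (sg 0) -
        (n (Fam.pt F ω) (sg 2) - s₁ ω * n (Fam.pt F ω) (sg 1))| ≤ 5 * (1 / 2 ^ lp) := by
      intro ω hω
      have f1 : (F.d ω (sg 2) - s₁ ω * F.d ω (sg 1)) -
        (ef (Fam.pt F ω) (sg 2) - s₁ ω * ef (Fam.pt F ω) (sg 1)) * F.d ω (sg 0) -
        (n (Fam.pt F ω) (sg 2) - s₁ ω * n (Fam.pt F ω) (sg 1)) =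
        (F.d ω (sg 2) - ef (Fam.pt F ω) (sg 2) * F.d ω (sg 0) - n (Fam.pt F ω) (sg 2)) -
        s₁ ω * (F.d ω (sg 1) - ef (Fam.pt F ω) (sg 1) * F.d ω (sg 0) -
          n (Fam.pt F ω) (sg 1)) := by ring
      rw [f1]
      refine (abs_sub _ _).trans ?_
      rw [abs_mul]
      have f2 : |s₁ ω| * |F.d ω (sg 1) - ef (Fam.pt F ω) (sg 1) * F.d ω (sg 0) -
            n (Fam.pt F ω) (sg 1)| ≤ 4 * (1 / 2 ^ lp) :=
        mul_le_mul (bs ω hω) (hL ω hω (sg 1)) (abs_nonneg _) (by norm_num)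
      have f3 := hL ω hω (sg 2)
      linarith only [f2, f3]
    refine ⟨lp - 3, ef, n, fun v => n v (sg 2) - sv v * n v (sg 1), sv, by omega, hij, hl,
      by norm_num, by norm_num, hfn, ca, ct, bs, hvs, fun ω hω j => (hL ω hω j).trans
      (one_le_div (by omega)), fun ω hω j => (hb ω hω j).trans (by norm_num), fun ω hω => ?_,
      an1, fun ω hω => ?_⟩
    · have f1 : (F.d ω (sg 2) - ef (Fam.pt F ω) (sg 2) * F.d ω (sg 0)) - s₁ ω *
          (F.d ω (sg 1) - ef (Fam.pt F ω) (sg 1) * F.d ω (sg 0)) -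
          (n (Fam.pt F ω) (sg 2) - sv (Fam.pt F ω) * n (Fam.pt F ω) (sg 1)) =
          (F.d ω (sg 2) - s₁ ω * F.d ω (sg 1)) -
        (ef (Fam.pt F ω) (sg 2) - s₁ ω * ef (Fam.pt F ω) (sg 1)) * F.d ω (sg 0) -
        (n (Fam.pt F ω) (sg 2) - s₁ ω * n (Fam.pt F ω) (sg 1)) := by
        rw [← hvs ω hω]
        ring
      rw [f1]
      refine (line2 ω hω).trans ?_
      have f2 : (2 : ℝ) ^ lp = 2 ^ (lp - 3) * 8 := by
        have : lp = lp - 3 + 3 := by omega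
        conv_lhs => rw [this, pow_add]
        norm_num
      have f3 : (0 : ℝ) < 2 ^ (lp - 3) := by positivity
      rw [f2, mul_one_div, div_le_div_iff₀ (by positivity) f3]
      nlinarith only [f3]
    · obtain ⟨ω', ω'', b1, b2, b3, b4, b5⟩ := hsp ω hω
      have s1 : s₁ ω' = s₁ ω := by rw [hvs ω' b1, hvs ω hω, b3]
      have s2 : s₁ ω'' = s₁ ω := by rw [hvs ω'' b2, hvs ω hω, b4]
      have t1 : t₁ ω' = t₁ ω := by rw [hvt ω' b1, hvt ω hω, b3]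
      have t2 : t₁ ω'' = t₁ ω := by rw [hvt ω'' b2, hvt ω hω, b4]
      have r2 : ∀ ω, E ω → |(F.d ω (sg 2) - s₁ ω * F.d ω (sg 1)) -
          (t₁ ω + kk (Fam.pt F ω)) * F.d ω (sg 0) - bb (Fam.pt F ω)| ≤ 4 * (1 / 2 ^ HN) := by
        intro ω hω
        have f1 : (F.d ω (sg 2) - s₁ ω * F.d ω (sg 1)) -
          (t₁ ω + kk (Fam.pt F ω)) * F.d ω (sg 0) - bb (Fam.pt F ω) =
          F.d ω (sg 2) - s₁ ω * F.d ω (sg 1) - t₁ ω * F.d ω (sg 0) -
            bb (Fam.pt F ω) - kk (Fam.pt F ω) * F.d ω (sg 0) := by ring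
        rw [f1]
        exact on2 ω hω
      have a1 := line2 ω' b1
      have a2 := line2 ω'' b2
      have a3 := r2 ω' b1
      have a4 := r2 ω'' b2
      rw [b3, s1] at a1
      rw [b3, s1, t1] at a3
      rw [b4, s2] at a2
      rw [b4, s2, t2] at a4
      refine (close2 a1 a2 a3 a4 pq b5).trans ?_
      have k1 : (1 : ℝ) / 2 ^ lp ≤ 1 / 2 ^ (V + H + X + q + 5) := one_le_div (by omega)
      have k2 : (1 : ℝ) / 2 ^ HN ≤ 1 / 2 ^ (V + H + X + q + 5) := one_le_div n2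
      have k3 := num_q 18 (V + H + X) q
      calc (2 * (5 * (1 / 2 ^ lp)) + 2 * (4 * (1 / 2 ^ HN))) / (1 / 2 ^ (q + 1)) ≤
            18 * (1 / 2 ^ (V + H + X + q + 5)) / (1 / 2 ^ (q + 1)) :=
            div_le_div_of_nonneg_right (by linarith only [k1, k2]) pq.le
        _ = 18 / 16 / 2 ^ (V + H + X) := k3
        _ ≤ 3 / 2 ^ (V + H + X) := div_le_div_of_nonneg_right (by norm_num) (by positivity)

end Pool.S6H

namespace Pool.S6C

open Finset Real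
open Pool.Agent.H49.Ent Pool.Agent.H32.Dense Pool.STK Pool.KA Pool.KSAT Pool.K2S Pool.PB
open Pool.KS6 hiding ind ind_nonneg
open Pool.FALL Pool.S6H Pool.COP

/-- **The spread part of a large event.** -/
theorem spread_ev {S : PCl 3} {a₁ R h₁ : ℝ} {i₀ : Fin 3} {c s₂ : ℝ} {r : ℝ → ℝ} {D : Set ℝ}
    {σ : ℝ → Row} (hC : Cs S a₁ R h₁ i₀ c s₂ r D σ) {η x₂ C : ℝ} (hη : 0 < η)
    (hx : 0 < x₂) (hx1 : 4 * x₂ ≤ h₁) (hx2 : 2 * x₂ ≤ 1)
    (hx3 : x₂ + η < (σ 1).pi) (hC1 : 1 ≤ C) :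
    Clp S (fun J F A => ∀ E : F.Ω → Prop, Sub E A → Pe F.p A ≤ C * Pe F.p E →
      ∃ (q : ℕ) (E' : F.Ω → Prop) (ef n : (Fin 3 → ℤ) × (ℕ × F.ζ) → Fin 3 → ℝ),
        (q : ℝ) ≤ x₂ * J + 1 ∧ Sub E' E ∧ Pe F.p E ≤ 2 * Pe F.p E' ∧
        OnL i₀ (1 / 2 ^ ⌊((σ 1).pi - η) * J⌋₊) (Fam.pt F) F.d E' ef n ∧
        (∀ ω, E' ω → ∀ j, |ef (Fam.pt F ω) j| ≤ 5 / 4) ∧
        ∀ ω, E' ω → ∃ ω' ω'', E' ω' ∧ E' ω'' ∧ Fam.pt F ω' = Fam.pt F ω ∧
          Fam.pt F ω'' = Fam.pt F ω ∧ 1 / 2 ^ (q + 1) ≤ |F.d ω' i₀ - F.d ω'' i₀|) := by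
  classical
  have hR1 := hC.row 1 one_pos le_rfl hC.D1
  obtain ⟨τ, hτ, J₁, hsp⟩ := spread_part hC.a1 hC.R0 hC.ub hC.st hC.lb hx
  obtain ⟨J₃, hJ₃⟩ := exists_nat_gt (16 / h₁ + 16 / ((σ 1).pi - η - x₂) + 16)
  have hh₁ := hC.h₁0
  have hgap : 0 < (σ 1).pi - η - x₂ := by linarith only [hx3]
  have c2 := sub_base (S := S) hτ hC1
  have c3 := hR1.pi.1 η hη
  refine Clp.mono (J₂ := max J₁ J₃) (c2.and c3) ?_
  rintro J hJ F A ⟨d2, d3⟩ E hE hPE
  have hJ1 : J₁ ≤ J := (le_max_left _ _).trans hJ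
  have hJr : 16 / h₁ + 16 / ((σ 1).pi - η - x₂) + 16 < J :=
    hJ₃.trans_le (by exact_mod_cast (le_max_right _ _).trans hJ)
  have q1 : 0 < 16 / h₁ := by positivity
  have q2 : 0 < 16 / ((σ 1).pi - η - x₂) := by positivity
  have hJh : 16 < J * h₁ := by
    have : 16 / h₁ < J := by linarith only [hx, hx2, hJr, q2]
    rwa [div_lt_iff₀ hh₁] at this
  have hJg : 16 < J * ((σ 1).pi - η - x₂) := by
    have : 16 / ((σ 1).pi - η - x₂) < J := by linarith only [hx, hx2, hJr, q1]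
    rwa [div_lt_iff₀ hgap] at this
  have hJ0 : (0 : ℝ) ≤ J := Nat.cast_nonneg J
  rcases d3 with d3 | ⟨-, ef, n, hL⟩
  · linarith only [hx, hx3, d3]
  rw [ptq_one F] at hL
  have hSE := d2 E hE hPE
  obtain ⟨q, hq⟩ : ∃ q, q = ⌈x₂ * J⌉₊ := ⟨_, rfl⟩
  have hq1 : x₂ * J ≤ q := by rw [hq]; exact Nat.le_ceil _
  have hq2 : (q : ℝ) < x₂ * J + 1 := by rw [hq]; exact Nat.ceil_lt_add_one (by positivity)
  have hxJ1 : 4 * (x₂ * J) ≤ h₁ * J := by
    have := mul_le_mul_of_nonneg_right hx1 hJ0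
    linarith only [this]
  have hxJ2 : 2 * (x₂ * J) ≤ J := by
    have := mul_le_mul_of_nonneg_right hx2 hJ0
    linarith only [this]
  have hqJ : q ≤ J := by
    have : (q : ℝ) ≤ J := by linarith only [hx, hx2, hJr, q1, q2, hq2, hxJ2]
    exact_mod_cast this
  have hqh : q + 5 ≤ ⌊h₁ * J⌋₊ := by
    refine Nat.le_floor ?_
    push_cast
    linarith only [hx, hx2, hJh, hq2, hxJ1]
  have hql : q + 5 ≤ ⌊((σ 1).pi - η) * J⌋₊ := by
    refine Nat.le_floor ?_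
    push_cast
    have e1 : ((σ 1).pi - η) * J = x₂ * J + J * ((σ 1).pi - η - x₂) := by ring
    linarith only [hx, hx2, hJg, hq2]
  obtain ⟨B, hB, hPB, hpr⟩ := hsp J hJ1 F E hSE q hqJ hq1 (by omega)
  have e2 : Real.exp (-Real.log 2) = 1 / 2 := by
    rw [Real.exp_neg, Real.exp_log (by norm_num)]
    norm_num
  rw [e2] at hPB
  obtain ⟨eb, nb, hfr⟩ := hC.lb _ _ _ _ hSE
  refine ⟨q, B, ef, n, hq2.le, hB, by linarith only [hPB], fun ω hω j => hL ω (hE _ (hB _ hω)) j, ?_, hpr⟩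
  intro ω hω j
  obtain ⟨ω', ω'', b1, b2, b3, b4, b5⟩ := hpr ω hω
  have a1 := hL ω' (hE _ (hB _ b1)) j
  have a2 := hL ω'' (hE _ (hB _ b2)) j
  have a3 := hfr.line ω' (hB _ b1) j
  have a4 := hfr.line ω'' (hB _ b2) j
  rw [b3] at a1 a3
  rw [b4] at a2 a4
  have hcl := close2 a1 a2 a3 a4 (by positivity) b5
  have hbb := hfr.bound ω (hB _ hω) j
  have k1 : (1 : ℝ) / 2 ^ ⌊((σ 1).pi - η) * J⌋₊ ≤ 1 / 2 ^ (0 + q + 5) := one_le_div (by omega)
  have k2 : (1 : ℝ) / 2 ^ ⌊h₁ * J⌋₊ ≤ 1 / 2 ^ (0 + q + 5) := one_le_div (by omega)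
  have k3 := num_q 4 0 q
  have pq : (0 : ℝ) < 1 / 2 ^ (q + 1) := by positivity
  have k4 : (2 * (1 / 2 ^ ⌊((σ 1).pi - η) * J⌋₊) + 2 * (1 / 2 ^ ⌊h₁ * J⌋₊)) / (1 / 2 ^ (q + 1)) ≤
      (1 / 4 : ℝ) := by
    refine le_trans (div_le_div_of_nonneg_right (b := (4 : ℝ) * (1 / 2 ^ (0 + q + 5)))
      (by linarith only [k1, k2]) pq.le) ?_
    rw [k3]
    norm_num
  have k6 := abs_sub_abs_le_abs_sub (ef (Fam.pt F ω) j) (eb (Fam.pt F ω) j)
  linarith only [hcl, hbb, k4, k6]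

/-- **(T5)** No strips on typical lines: the double plateau. -/
theorem str_dpl {S : PCl 3} {a₁ R h₁ : ℝ} {i₀ : Fin 3} {c s₂ : ℝ} {r : ℝ → ℝ} {D : Set ℝ}
    {σ : ℝ → Row} (hC : Cs S a₁ R h₁ i₀ c s₂ r D σ) {pe : ℝ} {rc : ℚ → ℝ}
    (hN : RcN S i₀ pe rc) (hpe0 : 0 ≤ pe) (hpe : pe < (σ 1).pi)
    {κ wr v₀ L e x x₀ m C : ℝ} (he : 0 < e) (hL : 0 < L) (hx0 : 0 < x₀)
    (hx1 : x₀ ≤ 1) (hex : 4000 * e ≤ x₀ * x) (hm : 0 < m) (hC1 : 1 ≤ C)
    (hw1 : wr + L ≤ 1) (hv : v₀ + e ≤ pe) (hκ : κ + 5 * e ≤ 1)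
    (aff : ∀ q : ℚ, |(q : ℝ) - wr| ≤ L → |(σ 1).rot q - v₀| ≤ e ∧ |rc q - κ| ≤ e) :
    Clp S (fun J F A => ∀ B : F.Ω → Prop, Sub B A → Pe F.p A ≤ C * Pe F.p B →
      ∀ (sg : Fin 3 → Fin 3) (wl w V H kap Hu HN X : ℕ)
        (al nu kk bb : (Fin 3 → ℤ) × (ℕ × F.ζ) → ℝ) (a s t : F.Ω → ℝ), sg 0 = i₀ →
        Pool.DPC20.Frm F B sg wl V kap Hu HN al nu kk bb a s t → wl ≤ w →
        |(w : ℝ) - wr * J| ≤ L / 2 * J → x / 2 * J ≤ X → (v₀ - e) * J ≤ V →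
        (κ - e) * J ≤ ((V + H : ℕ) : ℝ) → V + H ≤ kap → ((V + X : ℕ) : ℝ) + m * J ≤ Hu →
        ((V + H + X : ℕ) : ℝ) + m * J ≤ HN → ((V + X : ℕ) : ℝ) ≤ pe * J →
        Pool.PLV.NStr (Pool.Agent.H49.Ent.cond F.p B True) (slam F w)
          (Pool.DPL.ownx F V H a al kk) ((2 : ℝ) ^ (-(x₀ * X))) (1 / 4)) := by
  classical
  have hR1 := hC.row 1 one_pos le_rfl hC.D1
  have hpi1 : (σ 1).pi ≤ 1 := num_le_cap hC.ne zero_le_one hR1.pi
  -- the errors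
  obtain ⟨e₁, he₁⟩ : ∃ e₁, e₁ = min e (((σ 1).pi - pe) / 8) := ⟨_, rfl⟩
  have he1 : 0 < e₁ := by rw [he₁]; exact lt_min he (by linarith only [hpe])
  have he1e : e₁ ≤ e := by rw [he₁]; exact min_le_left _ _
  have he1p : 8 * e₁ ≤ (σ 1).pi - pe := by
    have : e₁ ≤ ((σ 1).pi - pe) / 8 := by rw [he₁]; exact min_le_right _ _
    linarith only [this]
  obtain ⟨x₂, hx₂⟩ : ∃ x₂, x₂ = min (min (e₁ / 2) (m / 2)) (h₁ / 4) := ⟨_, rfl⟩
  have hx2 : 0 < x₂ := by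
    rw [hx₂]
    exact lt_min (lt_min (by linarith only [he1]) (by linarith only [hm])) (by linarith only [hC, hC.h₁0])
  have hx2e : x₂ ≤ e₁ / 2 := by rw [hx₂]; exact (min_le_left _ _).trans (min_le_left _ _)
  have hx2m : x₂ ≤ m / 2 := by rw [hx₂]; exact (min_le_left _ _).trans (min_le_right _ _)
  have hx2h : x₂ ≤ h₁ / 4 := by rw [hx₂]; exact min_le_right _ _
  obtain ⟨x₁, hx₁⟩ : ∃ x₁, x₁ = x₀ / 2 := ⟨_, rfl⟩
  obtain ⟨n₀, hn₀⟩ := exists_nat_gt (2 / L)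
  have hn0 : (0 : ℝ) < n₀ := lt_trans (by positivity) hn₀
  have hm1 : 1 / (n₀ : ℝ) ≤ L / 2 := by
    rw [div_lt_iff₀ hL] at hn₀
    rw [div_le_iff₀ hn0]
    linarith only [hn₀]
  have hm0 : 0 < 1 / (n₀ : ℝ) := by positivity
  have hCC : 0 < 1 / (192 * C) := by positivity
  -- the numbers at the window
  have key : ∀ k < n₀ + 1, Clp S (fun J F A => |(((k : ℚ) / n₀ : ℚ) : ℝ) - wr| ≤ L →
      ∀ G : F.Ω → Prop, Sub G A → 1 / (192 * C) * Pe F.p A ≤ Pe F.p G →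
      (∀ iu iN : Fin 3, (∀ j : Fin 3, j = i₀ ∨ j = iu ∨ j = iN) →
        ∀ (e' n' : (Fin 3 → ℤ) × (ℕ × F.ζ) → Fin 3 → ℝ) (sy : (Fin 3 → ℤ) × (ℕ × F.ζ) → ℝ)
          (s' c' : F.Ω → ℝ), ¬ RcF F G i₀ iu iN ⌊(pe + e₁) * J⌋₊
            ⌊(((k : ℚ) / n₀ : ℚ) : ℝ) * J⌋₊ ⌊(rc ((k : ℚ) / n₀) + 3 * e₁) * J⌋₊ 1
            ((1 + 2 * 3) * (1 + 4) + 3) (3 * ((1 + 2 * 3) * (1 + 4)) + 4) e' n' sy s' c') ∧
      ¬ RotU i₀ (1 / 2 ^ ⌊((σ 1).rot ((k : ℚ) / n₀) + e₁) * J⌋₊)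
        (1 / 2 ^ ⌊((σ 1).rot ((k : ℚ) / n₀) + e₁) * J⌋₊) (Fam.pt F)
        (slam F ⌊(((k : ℚ) / n₀ : ℚ) : ℝ) * J⌋₊) F.d G) := by
    intro k hk
    refine Clp.cnd fun hkL => ?_
    have hk1 : ((k : ℚ) / n₀ : ℚ) ≤ 1 := by
      have h1 : (0 : ℚ) < n₀ := by exact_mod_cast hn0
      rw [div_le_one h1]
      exact_mod_cast (by omega : k ≤ n₀)
    have hk0 : (0 : ℚ) ≤ (k : ℚ) / n₀ := by positivity
    obtain ⟨z1, z2⟩ := aff _ hkL
    rw [abs_le] at z1 z2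
    have hrcn := hN.nonneg hC.ne ((k : ℚ) / n₀)
    exact str_neg hN hpe0 he1 hrcn (by linarith only [hκ, he1e, hx2, hx2e, z2, z2.2]) (hR1.rot _ hk0 hk1)
      (by linarith only [hv, hpi1, he1p, hx2, hx2e, z1, z1.2]) hCC _ _ (by norm_num)
  have c2 : Clp S (fun J F A => 0 < Pe F.p A) :=
    Clp.of one_pos 0 fun J _ F A hA => lt_of_lt_of_le (Real.exp_pos _) (hC.st _ _ _ _ hA).2.2.2
  have c3 := spread_ev hC (η := e₁) (x₂ := x₂) (C := 8 * C) he1 hx2 (by linarith only [hx2h])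
    (by linarith only [hpe0, hpi1, he1p, hx2, hx2e]) (by linarith only [hpe0, he1p, hx2, hx2e]) (by linarith only [hpe0, hC1, hpi1, he1p, hx2, hx2e])
  obtain ⟨J₂, hJ₂⟩ := exists_nat_gt (24 / e₁ + 24 / m)
  refine Clp.mono (J₂ := J₂ + 1) (((Clp.all (n₀ + 1) key).and c2).and c3) ?_
  rintro J hJ F A ⟨⟨hk, hposA⟩, hspr⟩ B hB hPB sg wl w V H kap Hu HN X al nu kk bb a s t hsg hF
    hwl hw hX1 hV hVH hkap hHu hHN hVX
  have hJ0' : (0 : ℝ) < J := by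
    have : 0 < J := by omega
    exact_mod_cast this
  have hJ0 : (0 : ℝ) ≤ J := hJ0'.le
  have hJ2 : 24 / e₁ + 24 / m < J := hJ₂.trans_le (by exact_mod_cast (by omega : J₂ ≤ J))
  have q1 : 0 < 24 / e₁ := by positivity
  have q2 : 0 < 24 / m := by positivity
  have geJ : 24 < e₁ * J := by
    have : 24 / e₁ < J := by linarith only [hJ2, q2]
    rw [div_lt_iff₀ he1] at this
    linarith only [this]
  have gmJ : 24 < m * J := by
    have : 24 / m < J := by linarith only [hJ2, q1]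
    rw [div_lt_iff₀ hm] at this
    linarith only [this]
  have heJ : e₁ * J ≤ e * J := mul_le_mul_of_nonneg_right he1e hJ0
  have hposB : 0 < Pe F.p B := by
    have h1 := hposA.trans_le hPB
    by_contra h2
    push Not at h2
    have := mul_nonpos_of_nonneg_of_nonpos (by linarith only [hpe0, hC1, hpi1, he1p, hx2, hx2e] : (0 : ℝ) ≤ C) h2
    linarith only [hposA, hPB, this]
  have hl : IsLaw (Pool.Agent.H49.Ent.cond F.p B True) := isLaw_cond F.isLaw hposB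
  -- the block
  have T4 : 500 * (e * J) ≤ x₁ / 2 * X := by
    have h1 := mul_le_mul_of_nonneg_right hex hJ0
    have h2 : x₀ * (x / 2 * J) ≤ x₀ * X := mul_le_mul_of_nonneg_left hX1 hx0.le
    rw [hx₁]
    linarith only [h1, h2]
  have hXpos : (0 : ℝ) ≤ X := Nat.cast_nonneg X
  -- the rational window
  rw [abs_le] at hw
  obtain ⟨k, hkd⟩ : ∃ k : ℕ, k = ⌈(w : ℝ) * n₀ / J⌉₊ := ⟨_, rfl⟩
  have k1 := Nat.le_ceil ((w : ℝ) * n₀ / J)
  have k2 := Nat.ceil_lt_add_one (a := (w : ℝ) * n₀ / J) (by positivity)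
  rw [← hkd] at k1 k2
  obtain ⟨u, hu⟩ : ∃ u : ℝ, u = (((k : ℚ) / n₀ : ℚ) : ℝ) := ⟨_, rfl⟩
  have hu' : u = (k : ℝ) / n₀ := by
    rw [hu]
    push_cast
    rfl
  have u1 : (w : ℝ) ≤ u * J := by
    rw [div_le_iff₀ hJ0'] at k1
    rw [hu', div_mul_eq_mul_div, le_div_iff₀ hn0]
    linarith only [k1]
  have u2 : u * J ≤ w + 1 / n₀ * J := by
    have h1 : (k : ℝ) * J ≤ w * n₀ + J := by
      have := mul_le_mul_of_nonneg_right k2.le hJ0
      rw [add_mul, div_mul_cancel₀ _ hJ0'.ne', one_mul] at this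
      exact this
    rw [hu', div_mul_eq_mul_div, div_le_iff₀ hn0]
    have e2 : ((w : ℝ) + 1 / n₀ * J) * n₀ = w * n₀ + J := by
      field_simp
    rw [e2]
    exact h1
  have u3 : wr - L / 2 ≤ u := by
    have : (wr - L / 2) * J ≤ u * J := by linarith only [hw, u1]
    exact le_of_mul_le_mul_right this hJ0'
  have u4 : u ≤ wr + L / 2 + 1 / n₀ := by
    have : u * J ≤ (wr + L / 2 + 1 / n₀) * J := by linarith only [hw, u2]
    exact le_of_mul_le_mul_right this hJ0'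
  have hkL : |(((k : ℚ) / n₀ : ℚ) : ℝ) - wr| ≤ L := by
    rw [← hu, abs_le]
    constructor <;> linarith
  have hkn : k < n₀ + 1 := by
    have h1 : u ≤ 1 := by linarith only [hw1, hm1, u4]
    rw [hu', div_le_one hn0] at h1
    have : k ≤ n₀ := by exact_mod_cast h1
    omega
  obtain ⟨z1, z2⟩ := aff _ hkL
  rw [abs_le] at z1 z2
  have hneg := hk k hkn hkL
  rw [← hu] at hneg
  have fle : w ≤ ⌊u * J⌋₊ := Nat.le_floor u1
  have huJ : ⌊u * J⌋₊ ≤ J := by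
    refine Nat.floor_le_of_le ?_
    calc u * J ≤ 1 * J := mul_le_mul_of_nonneg_right (by linarith only [hw1, hm1, u4]) hJ0
      _ = J := one_mul _
  have hwJ : w ≤ J := fle.trans huJ
  -- the strips with a constant
  have hS : ∀ ω, 0 < Pool.Agent.H49.Ent.cond F.p B True ω → B ω := fun ω hω => by
    have := ((cond_pos_iff F.isLaw.nonneg B True ω).1 hω).2
    simpa using this
  have hSb : ∀ ω, 0 < Pool.Agent.H49.Ent.cond F.p B True ω → ∀ i,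
      |Pool.DPL.ownx F V H a al kk ω i| ≤ 3 := by
    intro ω hω i
    have hBω := hS ω hω
    fin_cases i
    · show |2 ^ V * (al (Fam.pt F ω) - a ω)| ≤ 3
      rw [abs_mul, abs_of_pos (by positivity : (0 : ℝ) < 2 ^ V)]
      have := hF.an1 ω hBω
      rw [le_div_iff₀ (by positivity)] at this
      linarith only [this]
    · show |2 ^ (V + H) * kk (Fam.pt F ω)| ≤ 3
      rw [abs_mul, abs_of_pos (by positivity : (0 : ℝ) < 2 ^ (V + H))]
      have := (hF.an2 ω hBω).trans (one_le_div hkap)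
      rw [le_div_iff₀ (by positivity)] at this
      linarith only [hpe0, hpi1, he1p, hx2, hx2e, this]
  have hXb : (16 : ℝ) ≤ x₁ * X := by
    have : 0 ≤ x₁ / 2 * X := by
      rw [hx₁]
      positivity
    linarith only [hpe0, hpi1, he1p, hx2, hx2e, geJ, heJ, T4]
  have hXX : (16 : ℝ) ≤ x₀ * X := by
    rw [hx₁] at hXb
    have : x₀ / 2 * X ≤ x₀ * X := mul_le_mul_of_nonneg_right (by linarith only [hx0]) hXpos
    linarith only [hpe0, hpi1, he1p, hx2, hx2e, hXb]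
  refine nstr_of hl (slam F w) (Pool.DPL.ownx F V H a al kk) (K := 3) (x₁ := x₁) (by norm_num)
    hSb ?_ ?_ ?_
  · calc (2 : ℝ) ^ (-(x₀ * X)) ≤ (2 : ℝ) ^ (-1 : ℝ) :=
          Real.rpow_le_rpow_of_exponent_le (by norm_num) (by linarith only [hpe0, hpi1, he1p, hx2, hx2e, hXX])
      _ = 1 / 2 := by rw [Real.rpow_neg_one]; norm_num
  · have h1 : (2 : ℝ) ^ (-(x₁ * X)) = (2 : ℝ) ^ (x₁ * X) * (2 : ℝ) ^ (-(x₀ * X)) := by
      rw [← Real.rpow_add (by norm_num)]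
      congr 1
      rw [hx₁]
      ring
    rw [h1]
    refine mul_le_mul_of_nonneg_right ?_ (by positivity)
    calc (4 : ℝ) * 3 ≤ (2 : ℝ) ^ (4 : ℝ) := by
          rw [show (4 : ℝ) = ((4 : ℕ) : ℝ) by norm_num, Real.rpow_natCast]
          norm_num
      _ ≤ (2 : ℝ) ^ (x₁ * X) := Real.rpow_le_rpow_of_exponent_le (by norm_num) (by linarith only [hpe0, hpi1, he1p, hx2, hx2e, geJ, heJ, T4])
  by_contra hcon
  have hf' : 1 / 4 < Pool.KAF.Pr (Pool.Agent.H49.Ent.cond F.p B True) {ω |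
      ∃ (n : Fin 2 → ℝ) (z : ℝ), (∀ i, |n i| ≤ 1) ∧ (∃ i, |n i| = 1) ∧
      1 / 2 < Pool.KAF.Pr (Pool.Agent.H49.Ent.cond (Pool.Agent.H49.Ent.cond F.p B True)
        (slam F w) (slam F w ω))
        {ρ | |∑ i, n i * Pool.DPL.ownx F V H a al kk ρ i - z| < (2 : ℝ) ^ (-(x₁ * X))}} :=
    not_le.1 hcon
  obtain ⟨nn, zz, hE⟩ := strip_ev hl (slam F w) (Pool.DPL.ownx F V H a al kk) hf'
  obtain ⟨E, hEd⟩ : ∃ E, E = StrE (Pool.Agent.H49.Ent.cond F.p B True) (slam F w)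
    (Pool.DPL.ownx F V H a al kk) ((2 : ℝ) ^ (-(x₁ * X))) nn zz := ⟨_, rfl⟩
  rw [← hEd] at hE
  have hEB : Sub E B := fun ω hω => by
    rw [hEd] at hω
    exact hS ω hω.2.2
  have hEp : ∀ ω, E ω → 0 < F.p ω := fun ω hω => by
    rw [hEd] at hω
    exact ((cond_pos_iff F.isLaw.nonneg B True ω).1 hω.2.2).1
  have hPE : 1 / 8 * Pe F.p B ≤ Pe F.p E := by
    have e1 : Pe (Pool.Agent.H49.Ent.cond F.p B True) E =
        Pe F.p (fun ω => B ω ∧ E ω) / Pe F.p B := Pe_cond E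
    have e2 : (fun ω => B ω ∧ E ω) = E := by
      funext ω
      exact propext ⟨fun k => k.2, fun k => ⟨hEB ω k, k⟩⟩
    rw [e2] at e1
    rw [e1, le_div_iff₀ hposB] at hE
    linarith only [hE]
  obtain ⟨q, E', ef, n, hq, hE'E, hPE', hLn, hbn, hsp⟩ := hspr E (hEB.trans hB) (by
    have := mul_le_mul_of_nonneg_left hPE (by linarith only [hpe0, hC1, hpi1, he1p, hx2, hx2e] : (0 : ℝ) ≤ 8 * C)
    linarith only [hPB, this])
  rw [← hsg] at hLn hsp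
  have hposE : 0 < Pe F.p E' := by linarith only [hposB, hPE, hPE']
  have hlE : IsLaw (Pool.Agent.H49.Ent.cond F.p E' True) := isLaw_cond F.isLaw hposE
  have hSE : ∀ ω, 0 < Pool.Agent.H49.Ent.cond F.p E' True ω → E' ω := fun ω hω => by
    have := ((cond_pos_iff F.isLaw.nonneg E' True ω).1 hω).2
    simpa using this
  -- the frame as a function of the window
  obtain ⟨fr, hfr⟩ := exists_fun (fun ω => 0 < F.p ω) (slam F w) (fun ω => (a ω, s ω, t ω)) (by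
    intro ω ω' hω hω' he'
    exact hF.det ω ω' hω hω' (Pool.S6K.slam_mono hwl hwJ he'))
  have heq : ∀ ω, E' ω → a ω = (fr (slam F w ω)).1 ∧ s ω = (fr (slam F w ω)).2.1 ∧
      t ω = (fr (slam F w ω)).2.2 := fun ω hω => by
    have := hfr ω (hEp ω (hE'E ω hω))
    rw [← this]
    exact ⟨rfl, rfl, rfl⟩
  have qJ : (q : ℝ) ≤ e₁ / 2 * J + 1 := by
    have := mul_le_mul_of_nonneg_right hx2e hJ0
    linarith only [hq, this]
  have qm : (q : ℝ) ≤ m / 2 * J + 1 := by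
    have := mul_le_mul_of_nonneg_right hx2m hJ0
    linarith only [hq, this]
  obtain ⟨PN, e', n', b, sv, hPN, hW⟩ := win_frm (He := ⌊(pe + e₁) * J⌋₊) (X := X) (w := w)
    (a₁ := fun ω => (fr (slam F w ω)).1) (s₁ := fun ω => (fr (slam F w ω)).2.1)
    (t₁ := fun ω => (fr (slam F w ω)).2.2) hF (hE'E.trans hEB) hlE
    (fun ω ω' h => ⟨by rw [h], by rw [h], by rw [h]⟩) heq hLn hbn hsp
    (by
      have : ((V + X + q + 5 : ℕ) : ℝ) ≤ Hu := by
        push_cast at hHu ⊢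
        linarith only [hpe0, hpi1, he1p, hx2, hx2e, gmJ, qm, hHu]
      exact_mod_cast this)
    (by
      have : ((V + H + X + q + 5 : ℕ) : ℝ) ≤ HN := by
        push_cast at hHN ⊢
        linarith only [hpe0, hpi1, he1p, hx2, hx2e, gmJ, qm, hHN]
      exact_mod_cast this)
    (by
      refine Nat.le_floor ?_
      have h1 := Nat.floor_le (mul_nonneg (by linarith only [hpe0, hx2, hx2e] : (0 : ℝ) ≤ pe + e₁) hJ0)
      have h2 : (pe + 8 * e₁) * J ≤ (σ 1).pi * J :=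
        mul_le_mul_of_nonneg_right (by linarith only [he1p]) hJ0
      push_cast
      linarith only [hpe0, hpi1, he1p, hx2, hx2e, geJ, qJ, h1, h2])
    (by
      refine Nat.le_floor ?_
      have : 0 ≤ e₁ * J := by positivity
      linarith only [hpe0, hpi1, he1p, hx2, hx2e, hVX, geJ])
    hkap
    (by
      refine Nat.le_floor ?_
      have h1 : 0 ≤ pe * J := mul_nonneg hpe0 hJ0
      push_cast
      linarith only [hpe0, hpi1, he1p, hx2, hx2e, hVX, geJ, qJ])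
  -- all slopes are in the strips
  have hfail := strip_full hlE (slam F w) (SW V H (fun ω => (fr (slam F w ω)).1)
    (fun ω => (fr (slam F w ω)).2.2) (fun ω => al (Fam.pt F ω))
    (fun ω => (fr (slam F w ω)).2.2 + kk (Fam.pt F ω))) (X := X) (x₀ := x₁) nn zz (by
    intro ω hω
    have h1 := hSE ω hω
    have h2 := hE'E ω h1
    rw [hEd] at h2
    obtain ⟨z1, z2, -⟩ := h2
    refine ⟨z1, ?_⟩
    have e1 : ∀ i, SW V H (fun ω => (fr (slam F w ω)).1)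
        (fun ω => (fr (slam F w ω)).2.2) (fun ω => al (Fam.pt F ω))
        (fun ω => (fr (slam F w ω)).2.2 + kk (Fam.pt F ω)) ω i =
        Pool.DPL.ownx F V H a al kk ω i := by
      intro i
      obtain ⟨g1, -, -⟩ := heq ω h1
      fin_cases i
      · show 2 ^ V * (al (Fam.pt F ω) - (fr (slam F w ω)).1) = 2 ^ V * (al (Fam.pt F ω) - a ω)
        rw [g1]
      · show 2 ^ (V + H) * ((fr (slam F w ω)).2.2 + kk (Fam.pt F ω) - (fr (slam F w ω)).2.2) =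
          2 ^ (V + H) * kk (Fam.pt F ω)
        ring
    simp only [e1]
    exact z2)
  have hx11 : x₁ ≤ 1 / 2 := by rw [hx₁]; linarith only [hx1]
  have hx10 : 0 < x₁ := by rw [hx₁]; linarith only [hx0]
  have hX7 : 2 * (1 + 4) * (2 : ℝ) ^ (x₁ * X) < 2 ^ X := by
    have hXb' : (32 : ℝ) ≤ X := by
      have : x₁ * X ≤ 1 / 2 * X := mul_le_mul_of_nonneg_right hx11 hXpos
      linarith only [hpe0, hpi1, he1p, hx2, hx2e, geJ, heJ, T4, this]
    have h1 : (2 : ℝ) ^ (x₁ * X) ≤ (2 : ℝ) ^ ((X : ℝ) - 4) := by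
      refine Real.rpow_le_rpow_of_exponent_le (by norm_num) ?_
      have : x₁ * X ≤ 1 / 2 * X := mul_le_mul_of_nonneg_right hx11 hXpos
      linarith only [hpe0, hpi1, he1p, hx2, hx2e, geJ, heJ, T4, this]
    have h2 : (2 : ℝ) ^ ((X : ℝ) - 4) = 2 ^ X / 16 := by
      rw [Real.rpow_sub (by norm_num), Real.rpow_natCast]
      norm_num
    rw [h2] at h1
    have h3 : (0 : ℝ) < 2 ^ X := by positivity
    linarith only [h1, h3]
  have hHe2 : V + X ≤ ⌊(pe + e₁) * J⌋₊ := by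
    refine Nat.le_floor ?_
    have : 0 ≤ e₁ * J := by positivity
    linarith only [hpe0, hpi1, he1p, hx2, hx2e, hVX, geJ]
  have hr : ((⌊(rc ((k : ℚ) / n₀) + 3 * e₁) * J⌋₊ : ℕ) : ℝ) ≤ V + H + x₁ / 2 * X := by
    have hrcn := hN.nonneg hC.ne ((k : ℚ) / n₀)
    refine (Nat.floor_le (mul_nonneg (by linarith only [hx2, hx2e, hrcn]) hJ0)).trans ?_
    have h1 : rc ((k : ℚ) / n₀) + 3 * e₁ ≤ κ + 4 * e := by linarith only [he1e, z2, z2.2]
    have h2 := mul_le_mul_of_nonneg_right h1 hJ0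
    push_cast at hVH
    linarith only [hpe0, hpi1, he1p, hx2, hx2e, geJ, heJ, T4, h2, hVH]
  obtain ⟨G, hG1, hG2, hG3⟩ := str_fam (v := ⌊u * J⌋₊) hW (slam F w)
    (fun _ _ _ _ h => h) hx10 hx11 (ε := 1 / 2) (by norm_num) hX7 le_rfl hHe2 hPN hr fle huJ hfail
  obtain ⟨g1, g2⟩ := hneg G ((hG1.trans hE'E).trans (hEB.trans hB)) (by
    have h1 : Pe F.p A ≤ 192 * C * Pe F.p G := by
      have h2 : C * Pe F.p B ≤ 192 * C * Pe F.p G := by
        have : Pe F.p B ≤ 192 * Pe F.p G := by linarith only [hPE, hPE', hG2]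
        have := mul_le_mul_of_nonneg_left this (by linarith only [hpe0, hC1, hpi1, he1p, hx2, hx2e] : (0 : ℝ) ≤ C)
        linarith only [this]
      linarith only [hPB, h2]
    rw [one_div, inv_mul_le_iff₀ (by positivity)]
    exact h1)
  rcases hG3 with ⟨iu, iN, hii, e₂, n₂, sy, s', c', hR⟩ | ⟨-, e₂, n₂, ζ, hO, hζ⟩
  · rw [hsg] at hii hR
    exact g1 iu iN hii e₂ n₂ sy s' c' (hR.win fle huJ)
  · have hrot0 : 0 ≤ (σ 1).rot ((k : ℚ) / n₀) + e₁ := by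
      have h1 := num_nonneg hC.ne (hR1.rot ((k : ℚ) / n₀) (by positivity) (by
        have h1 : (0 : ℚ) < n₀ := by exact_mod_cast hn0
        rw [div_le_one h1]
        exact_mod_cast (by omega : k ≤ n₀)))
      linarith only [hx2, hx2e, h1]
    refine g2 ⟨e₂, n₂, ζ, ?_, ?_⟩
    · intro ω hω j
      have := hO ω hω j
      rw [hsg] at this
      refine this.trans (one_le_div (Nat.floor_le_floor (mul_le_mul_of_nonneg_right ?_ hJ0)))
      linarith only [hv, z1, z1.2]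
    · intro ω hω j
      refine (hζ ω hω j).trans ?_
      have h1 : ((1 + 4) * (2 * 3 + 1) + 2 * 3 : ℝ) * (2 : ℝ) ^ (-(x₁ / 2 * X)) /
          2 ^ V ≤ (2 : ℝ) ^ (6 + -(x₁ / 2 * X) - (V : ℝ)) := by
        rw [Real.rpow_sub (by norm_num), Real.rpow_add (by norm_num), Real.rpow_natCast]
        refine div_le_div_of_nonneg_right (mul_le_mul_of_nonneg_right ?_ (by positivity))
          (by positivity)
        norm_num
      refine h1.trans ?_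
      have h2 : (1 : ℝ) / 2 ^ ⌊((σ 1).rot ((k : ℚ) / n₀) + e₁) * J⌋₊ =
          (2 : ℝ) ^ (-(⌊((σ 1).rot ((k : ℚ) / n₀) + e₁) * J⌋₊ : ℝ)) := by
        rw [Real.rpow_neg (by norm_num), Real.rpow_natCast, one_div]
      rw [h2]
      refine Real.rpow_le_rpow_of_exponent_le (by norm_num) ?_
      have h3 := Nat.floor_le (mul_nonneg hrot0 hJ0)
      have h4 : (σ 1).rot ((k : ℚ) / n₀) + e₁ ≤ v₀ + 2 * e := by linarith only [he1e, z1, z1.2]
      have h5 := mul_le_mul_of_nonneg_right h4 hJ0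
      linarith only [hV, geJ, heJ, T4, h3, h5]

end Pool.S6C
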