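import Pool.Agent.H1.DPL.CopF
import Pool.Agent.H41.S6H.Rc2
import Pool.Agent.H6.S6H.Hin

/-!
# No strips on typical lines: one family

If on typical lines more than half of the slopes lie in a strip of width `2 ^ (-x₀ X)`, then the
directions lie in a closed plane, or they are constant, to `x₀ X / 2` more digits.
-/

set_option autoImplicit false

namespace Pool.S6H

open Finset Real
open Pool.Agent.H49.Ent Pool.Agent.H32.Dense Pool.STK Pool.KA Pool.KSAT Pool.K2S
open Pool.KS6 hiding ind ind_nonneg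
open Pool.PLN Pool.COP Pool.S6C Pool.PB

/-! ### The pure part -/

section pure

variable {Ω Λ : Type} [Fintype Ω] {P : Ω → ℝ}

/-- The event of a strip. -/
def StrE (P : Ω → ℝ) (L : Ω → Λ) (S : Ω → Fin 2 → ℝ) (δ : ℝ) (n : Λ → Fin 2 → ℝ) (z : Λ → ℝ)
    (ω : Ω) : Prop :=
  ((∀ i, |n (L ω) i| ≤ 1) ∧ ∃ i, |n (L ω) i| = 1) ∧
    |∑ i, n (L ω) i * S ω i - z (L ω)| < δ ∧ 0 < P ω

/-- **Strips.** -/
theorem strip_ev (hP : IsLaw P) (L : Ω → Λ) (S : Ω → Fin 2 → ℝ) {δ ε : ℝ}
    (hf : ε < Pool.KAF.Pr P {ω | ∃ (n : Fin 2 → ℝ) (z : ℝ), (∀ i, |n i| ≤ 1) ∧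
      (∃ i, |n i| = 1) ∧ 1 / 2 < Pool.KAF.Pr (Pool.Agent.H49.Ent.cond P L (L ω))
        {ρ | |∑ i, n i * S ρ i - z| < δ}}) :
    ∃ (n : Λ → Fin 2 → ℝ) (z : Λ → ℝ), ε / 2 ≤ Pe P (StrE P L S δ n z) := by
  classical
  have h0 := hP.nonneg
  obtain ⟨G, hG⟩ : ∃ G : Λ → (Fin 2 → ℝ) × ℝ → Prop, G = fun ℓ x => ((∀ i, |x.1 i| ≤ 1) ∧
      ∃ i, |x.1 i| = 1) ∧ 1 / 2 < ∑ ρ, Pool.Agent.H49.Ent.cond P L ℓ ρ *
        Pool.PLN.ind (|∑ i, x.1 i * S ρ i - x.2| < δ) := ⟨_, rfl⟩
  obtain ⟨y, hy⟩ : ∃ y : Λ → (Fin 2 → ℝ) × ℝ, ∀ ℓ, (∃ x, G ℓ x) → G ℓ (y ℓ) := by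
    refine ⟨fun ℓ => if h : ∃ x, G ℓ x then h.choose else 0, fun ℓ h => ?_⟩
    simp only [dif_pos h]
    exact h.choose_spec
  refine ⟨fun ℓ => (y ℓ).1, fun ℓ => (y ℓ).2, ?_⟩
  obtain ⟨g, hg⟩ : ∃ g : Λ → Ω → ℝ, g = fun ℓ w => Pool.PLN.ind (∃ x, G ℓ x) *
      Pool.PLN.ind (|∑ i, (y ℓ).1 i * S w i - (y ℓ).2| < δ) := ⟨_, rfl⟩
  have k1 := sum_cc' (Z := L) hP g
  have k2 : ε / 2 ≤ ∑ ω, P ω * ∑ w, Pool.Agent.H49.Ent.cond P L (L ω) w * g (L ω) w := by
    have k3 : ε / 2 ≤ ∑ ω, P ω * (Pool.PLN.ind (∃ x, G (L ω) x) * (1 / 2)) := by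
      have k4 : ε ≤ ∑ ω, P ω * Pool.PLN.ind (∃ x, G (L ω) x) := by
        refine hf.le.trans ?_
        rw [show Pool.KAF.Pr P _ = law P _ True from rfl, law_ind]
        refine Finset.sum_le_sum fun ω _ => mul_le_mul_of_nonneg_left (ind_mono ?_) (h0 ω)
        rintro ⟨n', z', hn1, hn2, hn3⟩
        rw [hG]
        refine ⟨(n', z'), ⟨hn1, hn2⟩, lt_of_lt_of_le hn3 (le_of_eq ?_)⟩
        rw [show Pool.KAF.Pr (Pool.Agent.H49.Ent.cond P L (L ω)) _ =
          law (Pool.Agent.H49.Ent.cond P L (L ω)) _ True from rfl, law_ind]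
        rfl
      have e : ∑ ω, P ω * (Pool.PLN.ind (∃ x, G (L ω) x) * (1 / 2)) =
          (∑ ω, P ω * Pool.PLN.ind (∃ x, G (L ω) x)) / 2 := by
        rw [Finset.sum_div]
        exact Finset.sum_congr rfl fun ω _ => by ring
      rw [e]
      linarith only [k4]
    refine k3.trans (Finset.sum_le_sum fun ω _ => mul_le_mul_of_nonneg_left ?_ (h0 ω))
    rw [hg]
    have e : ∀ w, Pool.Agent.H49.Ent.cond P L (L ω) w * (Pool.PLN.ind (∃ x, G (L ω) x) *
        Pool.PLN.ind (|∑ i, (y (L ω)).1 i * S w i - (y (L ω)).2| < δ)) =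
        Pool.PLN.ind (∃ x, G (L ω) x) * (Pool.Agent.H49.Ent.cond P L (L ω) w *
        Pool.PLN.ind (|∑ i, (y (L ω)).1 i * S w i - (y (L ω)).2| < δ)) := fun w => by ring
    simp only [e]
    rw [← Finset.mul_sum]
    by_cases hx : ∃ x, G (L ω) x
    · refine mul_le_mul_of_nonneg_left ?_ (Pool.PLN.ind_nonneg _)
      have := hy _ hx
      rw [hG] at this
      exact this.2.le
    · rw [ind_not hx, zero_mul, zero_mul]
  exact by
   rw [k1] at k2
   refine k2.trans ?_
   rw [Pe_ind]
   refine Finset.sum_le_sum fun w _ => ?_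
   rcases (h0 w).eq_or_lt with hw | hw
   · rw [← hw, zero_mul, zero_mul]
   refine mul_le_mul_of_nonneg_left ?_ hw.le
   rw [hg]
   simp only
   rw [← Pool.COP.ind_and]
   refine ind_mono ?_
   rintro ⟨q1, q2⟩
   have := hy _ q1
   rw [hG] at this
   exact ⟨this.1, q2, hw⟩

end pure

/-! ### One window -/

variable {J : ℕ}

/-- **One window**: the frame `(a, s, t)` is a function of the line and of its window, the exact
frame `(a', s, t')`, the straightness of the fans at exact points. -/
structure WIn (F : Fam 3 J) (A : F.Ω → Prop) (σ : Fin 3 → Fin 3) (w V H X Pu PN : ℕ) (D B : ℝ)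
    (a s t a' t' : F.Ω → ℝ) (e n : (Fin 3 → ℤ) × (ℕ × F.ζ) → Fin 3 → ℝ)
    (b sv : (Fin 3 → ℤ) × (ℕ × F.ζ) → ℝ) : Prop where
  hi : ∀ j, j = σ 0 ∨ j = σ 1 ∨ j = σ 2
  law : IsLaw (Pool.Agent.H49.Ent.cond F.p A True)
  D0 : 1 ≤ D
  B0 : 1 ≤ B
  fn : ∀ ω ω', slam F w ω = slam F w ω' → a ω = a ω' ∧ s ω = s ω' ∧ t ω = t ω'
  ca : ∀ ω, A ω → |a' ω - a ω| ≤ D / 2 ^ V
  ct : ∀ ω, A ω → |t' ω - t ω| ≤ D / 2 ^ (V + H)
  bs : ∀ ω, A ω → |s ω| ≤ B
  vis : ∀ ω, A ω → s ω = sv (Fam.pt F ω)
  onl : OnL (σ 0) (1 / 2 ^ Pu) (Fam.pt F) F.d A e n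
  be : ∀ ω, A ω → ∀ j, |e (Fam.pt F ω) j| ≤ 3 / 2
  on2 : ∀ ω, A ω → |(F.d ω (σ 2) - e (Fam.pt F ω) (σ 2) * F.d ω (σ 0)) -
    s ω * (F.d ω (σ 1) - e (Fam.pt F ω) (σ 1) * F.d ω (σ 0)) - b (Fam.pt F ω)| ≤ 1 / 2 ^ PN
  an1 : ∀ ω, A ω → |e (Fam.pt F ω) (σ 1) - a' ω| ≤ D / 2 ^ (V + X)
  an2 : ∀ ω, A ω → |e (Fam.pt F ω) (σ 2) - s ω * e (Fam.pt F ω) (σ 1) - t' ω| ≤
    D / 2 ^ (V + H + X)

/-- The slopes. -/
noncomputable def SW {Ω : Type} (V H : ℕ) (a t a' t' : Ω → ℝ) (ω : Ω) (i : Fin 2) : ℝ :=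
  ![2 ^ V * (a' ω - a ω), 2 ^ (V + H) * (t' ω - t ω)] i

section alg

variable {B D δ θ : ℝ} {H V X : ℕ} {a s t a' t' eu eN n0 n1 z : ℝ}

/-- The form at the own direction. -/
theorem form_dir (hD : 1 ≤ D) (hδ : 1 / 2 ^ X ≤ δ) (h0 : |n0| ≤ 1) (h1 : |n1| ≤ 1)
    (hz : |n0 * (2 ^ V * (a' - a)) + n1 * (2 ^ (V + H) * (t' - t)) - z| < δ)
    (an1 : |eu - a'| ≤ D / 2 ^ (V + X)) (an2 : |eN - s * eu - t'| ≤ D / 2 ^ (V + H + X)) :
    |cE H V a t n0 n1 (-z) + cU H s n0 n1 * eu + cN H n1 * eN| ≤ (1 + 2 * D) * δ / 2 ^ V := by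
  have pV : (0 : ℝ) < 2 ^ V := by positivity
  have pH : (0 : ℝ) < 2 ^ H := by positivity
  have pX : (0 : ℝ) < 2 ^ X := by positivity
  have e1 : cE H V a t n0 n1 (-z) + cU H s n0 n1 * eu + cN H n1 * eN =
      (n0 * (2 ^ V * (a' - a)) + n1 * (2 ^ (V + H) * (t' - t)) - z) / 2 ^ V +
        (n0 * (eu - a') + 2 ^ H * n1 * (eN - s * eu - t')) := by
    unfold cE cU cN
    rw [pow_add]
    field_simp
    ring
  rw [e1]
  refine (abs_add_le _ _).trans ?_
  have q1 : |(n0 * (2 ^ V * (a' - a)) + n1 * (2 ^ (V + H) * (t' - t)) - z) / 2 ^ V| ≤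
      δ / 2 ^ V := by
    rw [abs_div, abs_of_pos pV]
    exact div_le_div_of_nonneg_right hz.le pV.le
  have q2 : |n0 * (eu - a') + 2 ^ H * n1 * (eN - s * eu - t')| ≤ 2 * D * (1 / 2 ^ X) / 2 ^ V := by
    refine (abs_add_le _ _).trans ?_
    rw [abs_mul, abs_mul, abs_mul, abs_of_pos pH]
    have r1 : |n0| * |eu - a'| ≤ 1 * (D / 2 ^ (V + X)) :=
      mul_le_mul h0 an1 (abs_nonneg _) (by norm_num)
    have r2 : 2 ^ H * |n1| * |eN - s * eu - t'| ≤ 2 ^ H * 1 * (D / 2 ^ (V + H + X)) :=
      mul_le_mul (mul_le_mul_of_nonneg_left h1 pH.le) an2 (abs_nonneg _) (by positivity)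
    have r3 : (1 : ℝ) * (D / 2 ^ (V + X)) + 2 ^ H * 1 * (D / 2 ^ (V + H + X)) =
        2 * D * (1 / 2 ^ X) / 2 ^ V := by
      simp only [pow_add]
      field_simp
      ring
    linarith only [r1, r2, r3]
  have q3 : 2 * D * (1 / 2 ^ X) / 2 ^ V ≤ 2 * D * δ / 2 ^ V :=
    div_le_div_of_nonneg_right (mul_le_mul_of_nonneg_left hδ (by linarith only [hD])) pV.le
  have q4 : (1 + 2 * D) * δ / 2 ^ V = δ / 2 ^ V + 2 * D * δ / 2 ^ V := by ring
  rw [q4]
  linarith only [q1, q2, q3]

/-- The size of the larger coefficient. -/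
theorem form_big (hB : 0 ≤ B) (hs : |s| ≤ B) (hθ : 0 ≤ θ) (h : 2 ^ H * θ ≤ |n0| ∨ θ ≤ |n1|) :
    2 ^ H * θ / (1 + B) ≤ |cU H s n0 n1| ∨ 2 ^ H * θ / (1 + B) ≤ |cN H n1| := by
  have hp : (0 : ℝ) < 2 ^ H := by positivity
  refine tau_big hB hs (by positivity) ?_
  rcases h with h1 | h1
  · exact Or.inl h1
  · refine Or.inr ?_
    rw [abs_mul, abs_of_pos hp]
    exact mul_le_mul_of_nonneg_left h1 hp.le

/-- One chart: `α x_u + β x_N + γ x_e`. -/
theorem chart_s {α β γ eu' eN' T κ : ℝ} (hT : 0 < T) (hβ : T ≤ |β|) (hab : |α| ≤ |β|)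
    (hd : |γ + α * eu' + β * eN'| ≤ κ) (hu : |eu'| ≤ 3 / 2) (hN : |eN'| ≤ 3 / 2) :
    |α / β| ≤ 1 ∧ |γ / β + α / β * eu' + eN'| ≤ κ / T ∧ |γ / β| ≤ κ / T + 3 := by
  have b1 : 0 < |β| := by linarith only [hT, hβ]
  have nb : β ≠ 0 := abs_pos.1 b1
  have k1 : |α / β| ≤ 1 := by
    rw [abs_div, div_le_one b1]
    exact hab
  have k2 : |γ / β + α / β * eu' + eN'| ≤ κ / T := by
    have e : γ / β + α / β * eu' + eN' = (γ + α * eu' + β * eN') / β := by
      field_simp
    rw [e, abs_div]
    exact div_le_div₀ ((abs_nonneg _).trans hd) hd hT hβ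
  refine ⟨k1, k2, ?_⟩
  have e : γ / β = (γ / β + α / β * eu' + eN') - (α / β * eu' + eN') := by ring
  have k3 : |α / β * eu' + eN'| ≤ 3 := by
    refine (abs_add_le _ _).trans ?_
    rw [abs_mul]
    have := mul_le_mul k1 hu (abs_nonneg _) (by norm_num)
    linarith only [hN, this]
  calc |γ / β| = |(γ / β + α / β * eu' + eN') - (α / β * eu' + eN')| := by rw [← e]
    _ ≤ _ := (abs_sub _ _).trans (by linarith only [k2, k3])

end alg

section fam

variable {F : Fam 3 J} {A : F.Ω → Prop} {σ : Fin 3 → Fin 3} {w V H X Pu PN : ℕ} {D B : ℝ}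
  {a s t a' t' : F.Ω → ℝ} {e n : (Fin 3 → ℤ) × (ℕ × F.ζ) → Fin 3 → ℝ}
  {b sv : (Fin 3 → ℤ) × (ℕ × F.ζ) → ℝ}

/-- **Strips, one family.** -/
theorem str_fam (h : WIn F A σ w V H X Pu PN D B a s t a' t' e n b sv) {Λ : Type} (L : F.Ω → Λ)
    (hL : Det (Pool.Agent.H49.Ent.cond F.p A True) (slam F w) L) {x₀ ε : ℝ} {He r v : ℕ}
    (hx0 : 0 < x₀) (hx1 : x₀ ≤ 1 / 2) (hε : 0 < ε)
    (hX : 2 * (1 + B) * (2 : ℝ) ^ (x₀ * X) < 2 ^ X)
    (hHe : He ≤ Pu) (hHe2 : V + X ≤ He) (hPN : V + H + X ≤ PN)
    (hr : (r : ℝ) ≤ V + H + x₀ / 2 * X) (hwv : w ≤ v) (hvJ : v ≤ J)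
    (hf : ¬ NoStrip (Pool.Agent.H49.Ent.cond F.p A True) L (SW V H a t a' t') X x₀ ε) :
    ∃ G : F.Ω → Prop, Sub G A ∧ ε / 6 * Pe F.p A ≤ Pe F.p G ∧
      ((∃ iu iN : Fin 3, (∀ j : Fin 3, j = σ 0 ∨ j = iu ∨ j = iN) ∧
        ∃ (e' n' : (Fin 3 → ℤ) × (ℕ × F.ζ) → Fin 3 → ℝ) (sy : (Fin 3 → ℤ) × (ℕ × F.ζ) → ℝ)
          (s' c' : F.Ω → ℝ), RcF F G (σ 0) iu iN He w r 1 ((1 + 2 * D) * (1 + B) + 3)
            (3 * ((1 + 2 * D) * (1 + B)) + 4) e' n' sy s' c') ∨
      (x₀ / 2 * X < H ∧ ∃ (e' n' : (Fin 3 → ℤ) × (ℕ × F.ζ) → Fin 3 → ℝ)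
        (ζ : ((Fin 3 → ℝ) × (Fin 3 → ℝ)) × F.ζ × ℕ → Fin 3 → ℝ),
        OnL (σ 0) (1 / 2 ^ Pu) (Fam.pt F) F.d G e' n' ∧
        ∀ ω, G ω → ∀ j, |e' (Fam.pt F ω) j - ζ (slam F v ω) j| ≤
          ((1 + B) * (2 * D + 1) + 2 * D) * (2 : ℝ) ^ (-(x₀ / 2 * X)) / 2 ^ V)) := by
  classical
  obtain ⟨P, hP⟩ : ∃ P, P = Pool.Agent.H49.Ent.cond F.p A True := ⟨_, rfl⟩
  obtain ⟨S, hS⟩ : ∃ S, S = SW V H a t a' t' := ⟨_, rfl⟩
  obtain ⟨δ, hδ⟩ : ∃ δ : ℝ, δ = (2 : ℝ) ^ (-(x₀ * X)) := ⟨_, rfl⟩
  obtain ⟨θ, hθ⟩ : ∃ θ : ℝ, θ = (2 : ℝ) ^ (-(x₀ / 2 * X)) := ⟨_, rfl⟩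
  obtain ⟨C, hC⟩ : ∃ C : ℝ, C = (1 + 2 * D) * (1 + B) := ⟨_, rfl⟩
  have hD := h.D0
  have hB := h.B0
  have hX0 : (0 : ℝ) ≤ X := Nat.cast_nonneg X
  have hxX : 0 ≤ x₀ * X := by positivity
  have hθ0 : 0 < θ := by rw [hθ]; positivity
  have hδ0 : 0 < δ := by rw [hδ]; positivity
  have hδθ : δ = θ * θ := by
    rw [hδ, hθ, ← Real.rpow_add (by norm_num)]
    congr 1
    ring
  have hθ1 : θ ≤ 1 := by
    rw [hθ]
    exact Real.rpow_le_one_of_one_le_of_nonpos (by norm_num) (by linarith only [hxX])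
  have hXδ : 1 / 2 ^ X ≤ δ := by
    rw [hδ, Real.rpow_neg (by norm_num), one_div, ← Real.rpow_natCast]
    refine inv_anti₀ (by positivity) ?_
    exact Real.rpow_le_rpow_of_exponent_le (by norm_num) (by nlinarith only [hx1])
  have hC3 : 3 * (1 + B) ≤ C := by
    rw [hC]
    exact mul_le_mul_of_nonneg_right (by linarith only [hD]) (by linarith only [hx0, hx1, hB])
  have hC0 : 0 ≤ C := by linarith only [hx0, hx1, hB, hC3]
  -- precisions
  have pV : (0 : ℝ) < 2 ^ V := by positivity
  have pH : (0 : ℝ) < 2 ^ H := by positivity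
  exact by
   have hr1 : θ / 2 ^ (V + H) ≤ 1 / 2 ^ r := by
     have k1 : (2 : ℝ) ^ r ≤ 2 ^ (V + H) / θ := by
       rw [hθ, Real.rpow_neg (by norm_num), div_inv_eq_mul, ← Real.rpow_natCast,
         ← Real.rpow_natCast, ← Real.rpow_add (by norm_num)]
       refine Real.rpow_le_rpow_of_exponent_le (by norm_num) ?_
       push_cast
       linarith only [hr]
     rw [div_le_div_iff₀ (by positivity) (by positivity)]
     rw [le_div_iff₀ hθ0] at k1
     linarith only [k1]
   have hrPN : r ≤ PN := by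
     have : (r : ℝ) ≤ ((V + H + X : ℕ) : ℝ) := by
       push_cast
       nlinarith only [hr, hx1]
     have : r ≤ V + H + X := by exact_mod_cast this
     omega
   have hnear : He < r → 2 * (1 + B) / (2 ^ H * θ) ≤ C / 2 ^ (r - He) := by
     intro hlt
     have k1 : (2 : ℝ) ^ (r - He) ≤ 2 ^ H * θ := by
       rw [hθ, ← Real.rpow_natCast, ← Real.rpow_natCast, ← Real.rpow_add (by norm_num)]
       refine Real.rpow_le_rpow_of_exponent_le (by norm_num) ?_
       rw [Nat.cast_sub hlt.le]
       have k2 : ((V + X : ℕ) : ℝ) ≤ He := by exact_mod_cast hHe2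
       push_cast at k2
       nlinarith only [hr, k2, hx1]
     exact div_le_div₀ hC0 (by linarith only [hx0, hx1, hB, hC3]) (by positivity) k1
   -- the event
   have hPl : IsLaw P := by rw [hP]; exact h.law
   have hf' : ε < Pool.KAF.Pr P {ω | ∃ (n : Fin 2 → ℝ) (z : ℝ), (∀ i, |n i| ≤ 1) ∧
       (∃ i, |n i| = 1) ∧ 1 / 2 < Pool.KAF.Pr (Pool.Agent.H49.Ent.cond P L (L ω))
         {ρ | |∑ i, n i * S ρ i - z| < δ}} := by
     rw [hP, hS, hδ]
     exact not_le.1 hf
   exact by
    obtain ⟨nn, zz, hE⟩ := strip_ev hPl L S hf'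
    obtain ⟨E, hEd⟩ : ∃ E, E = StrE P L S δ nn zz := ⟨_, rfl⟩
    rw [← hEd] at hE
    have hPA : ∀ ω, 0 < P ω → A ω := fun ω hω => by
      rw [hP] at hω
      have := ((cond_pos_iff F.isLaw.nonneg A True ω).1 hω).2
      simpa using this
    have hA := pos_of_cond F.isLaw h.law
    -- functions of the window
    obtain ⟨ñ, hñ⟩ := exists_fun (fun ω => 0 < P ω) (slam F w) (fun ω => (nn (L ω), zz (L ω))) (by
      intro ω ω' hω hω' he
      rw [hP] at hω hω'
      have : L ω = L ω' := hL ω ω' hω hω' he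
      rw [this])
    obtain ⟨fr, hfr⟩ := exists_fun (fun _ : F.Ω => True) (slam F w) (fun ω => (a ω, s ω, t ω)) (by
      intro ω ω' _ _ he
      obtain ⟨k1, k2, k3⟩ := h.fn ω ω' he
      rw [k1, k2, k3])
    have hfr' : ∀ ω, a ω = (fr (slam F w ω)).1 ∧ s ω = (fr (slam F w ω)).2.1 ∧
        t ω = (fr (slam F w ω)).2.2 := fun ω => by
      have := hfr ω trivial
      rw [← this]
      exact ⟨rfl, rfl, rfl⟩
    -- the classes
    obtain ⟨N0, hN0⟩ : ∃ N0 : F.Ω → ℝ, N0 = fun ω => (ñ (slam F w ω)).1 0 := ⟨_, rfl⟩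
    obtain ⟨N1, hN1⟩ : ∃ N1 : F.Ω → ℝ, N1 = fun ω => (ñ (slam F w ω)).1 1 := ⟨_, rfl⟩
    obtain ⟨Z, hZ⟩ : ∃ Z : F.Ω → ℝ, Z = fun ω => (ñ (slam F w ω)).2 := ⟨_, rfl⟩
    obtain ⟨cl, hcl⟩ : ∃ cl : F.Ω → Fin 3, cl = fun ω => if 1 < 2 ^ H * θ ∧ |N1 ω| < θ then 0 else
        if |cU H (s ω) (N0 ω) (N1 ω)| ≤ |cN H (N1 ω)| then 1 else 2 := ⟨_, rfl⟩
    obtain ⟨i, hi⟩ := pigeon P E cl
    exact by
     rw [Fintype.card_fin] at hi
     obtain ⟨G, hG⟩ : ∃ G : F.Ω → Prop, G = fun ω => E ω ∧ cl ω = i := ⟨_, rfl⟩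
     rw [← hG] at hi
     have hGP : ∀ ω, G ω → 0 < P ω := fun ω hω => by
       rw [hG, hEd] at hω
       exact hω.1.2.2
     have hGA : Sub G A := fun ω hω => hPA ω (hGP ω hω)
     have hmass : ε / 6 * Pe F.p A ≤ Pe F.p G := by
       have e1 : Pe P G = Pe F.p (fun ω => A ω ∧ G ω) / Pe F.p A := by
         rw [hP]
         exact Pe_cond G
       have e2 : (fun ω => A ω ∧ G ω) = G := by
         funext ω
         exact propext ⟨fun k => k.2, fun k => ⟨hGA ω k, k⟩⟩
       rw [e2] at e1
       have e3 : ε / 6 ≤ Pe P G := by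
         push_cast at hi
         linarith only [hE, hi]
       rw [e1, le_div_iff₀ hA] at e3
       exact e3
     -- the data on the event
     have key : ∀ ω, G ω → (|N0 ω| ≤ 1 ∧ |N1 ω| ≤ 1) ∧ (|N0 ω| = 1 ∨ |N1 ω| = 1) ∧
         |N0 ω * (2 ^ V * (a' ω - a ω)) + N1 ω * (2 ^ (V + H) * (t' ω - t ω)) - Z ω| < δ := by
       intro ω hω
       have h1 := hGP ω hω
       rw [hG, hEd] at hω
       obtain ⟨⟨⟨z1, z2⟩, z3, -⟩, -⟩ := hω
       have h2 : (nn (L ω), zz (L ω)) = ñ (slam F w ω) := hñ ω h1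
       have h3 : ñ (slam F w ω) = (nn (L ω), zz (L ω)) := h2.symm
       rw [hN0, hN1, hZ]
       simp only [h3]
       refine ⟨⟨z1 0, z1 1⟩, ?_, ?_⟩
       · obtain ⟨i, hi⟩ := z2
         fin_cases i
         · exact Or.inl hi
         · exact Or.inr hi
       · rw [Fin.sum_univ_two, hS] at z3
         exact z3
     exact by
      have hdir : ∀ ω, G ω → |cE H V (a ω) (t ω) (N0 ω) (N1 ω) (-Z ω) +
          cU H (s ω) (N0 ω) (N1 ω) * e (Fam.pt F ω) (σ 1) + cN H (N1 ω) * e (Fam.pt F ω) (σ 2)| ≤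
          (1 + 2 * D) * δ / 2 ^ V := by
        intro ω hω
        obtain ⟨⟨z1, z2⟩, -, z3⟩ := key ω hω
        exact form_dir hD hXδ z1 z2 z3 (h.an1 ω (hGA ω hω)) (h.an2 ω (hGA ω hω))
      have hT : 0 < 2 ^ H * θ / (1 + B) := by positivity
      have hκ : (1 + 2 * D) * δ / 2 ^ V / (2 ^ H * θ / (1 + B)) ≤ C / 2 ^ r := by
        have e1 : (1 + 2 * D) * δ / 2 ^ V / (2 ^ H * θ / (1 + B)) = C * (θ / 2 ^ (V + H)) := by
          rw [hδθ, hC, pow_add]
          field_simp
        have e2 : C / 2 ^ r = C * (1 / 2 ^ r) := by ring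
        rw [e1, e2]
        exact mul_le_mul_of_nonneg_left hr1 hC0
      have hκ' : C / 2 ^ r ≤ C := div_le_self hC0 (one_le_pow₀ (by norm_num))
      have hsize : i ≠ 0 → ∀ ω, G ω → 2 ^ H * θ / (1 + B) ≤ |cU H (s ω) (N0 ω) (N1 ω)| ∨
          2 ^ H * θ / (1 + B) ≤ |cN H (N1 ω)| := by
        intro hi0 ω hω
        obtain ⟨-, z2, -⟩ := key ω hω
        refine form_big (by linarith only [hx0, hx1, hB]) (h.bs ω (hGA ω hω)) hθ0.le ?_
        have hcω : ¬ (1 < 2 ^ H * θ ∧ |N1 ω| < θ) := by
          intro hcon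
          rw [hG] at hω
          have := hω.2
          rw [hcl] at this
          simp only [if_pos hcon] at this
          exact hi0 this.symm
        by_cases h1 : 1 < 2 ^ H * θ
        · right
          by_contra hcon
          exact hcω ⟨h1, not_le.1 hcon⟩
        · push Not at h1
          rcases z2 with z2 | z2
          · left
            rw [z2]
            exact h1
          · right
            rw [z2]
            exact hθ1
      exact by
       have hi3 : i = 0 ∨ i = 1 ∨ i = 2 := by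
         fin_cases i <;> simp
       refine ⟨G, hGA, hmass, ?_⟩
       rcases hi3 with hi0 | hi0 | hi0
       · -- the directions are constant
         right
         have hcω : ∀ ω, G ω → 1 < 2 ^ H * θ ∧ |N1 ω| < θ := by
           intro ω hω
           by_contra hcon
           rw [hG] at hω
           have := hω.2
           rw [hcl, hi0] at this
           simp only [if_neg hcon] at this
           split_ifs at this
           · exact absurd this (by decide)
           · exact absurd this (by decide)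
         obtain ⟨ω₀, hω₀⟩ : ∃ ω, G ω := by
           by_contra hcon
           push Not at hcon
           have : Pe F.p G = 0 := by
             rw [Pe_ind]
             exact Finset.sum_eq_zero fun ω _ => by rw [ind_not (hcon ω), mul_zero]
           rw [this] at hmass
           have : 0 < ε / 6 * Pe F.p A := by positivity
           linarith only [hmass, this]
         have hHθ := (hcω ω₀ hω₀).1
         refine ⟨?_, nrE (σ 0) e, fun v j => if j = σ 0 then 0 else n v j,
           fun u => fun j => if j = σ 0 then 1 else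
             if j = σ 1 then (fr (u.1, u.2.1, u.2.2 / 2 ^ (v - w))).1 +
               (ñ (u.1, u.2.1, u.2.2 / 2 ^ (v - w))).2 /
                 (2 ^ V * (ñ (u.1, u.2.1, u.2.2 / 2 ^ (v - w))).1 0) else
             (fr (u.1, u.2.1, u.2.2 / 2 ^ (v - w))).2.1 *
               ((fr (u.1, u.2.1, u.2.2 / 2 ^ (v - w))).1 +
               (ñ (u.1, u.2.1, u.2.2 / 2 ^ (v - w))).2 /
                 (2 ^ V * (ñ (u.1, u.2.1, u.2.2 / 2 ^ (v - w))).1 0)) +
               (fr (u.1, u.2.1, u.2.2 / 2 ^ (v - w))).2.2, ?_, ?_⟩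
         · have k1 : (1 : ℝ) < (2 : ℝ) ^ ((H : ℝ) + -(x₀ / 2 * X)) := by
             rw [Real.rpow_add (by norm_num), Real.rpow_natCast, ← hθ]
             exact hHθ
           by_contra hcon
           push Not at hcon
           have := Real.rpow_le_one_of_one_le_of_nonpos (x := 2) (by norm_num)
             (show (H : ℝ) + -(x₀ / 2 * X) ≤ 0 by linarith only [hcon])
           linarith only [k1, this]
         · intro ω hω j
           unfold nrE
           by_cases hj : j = σ 0
           · simp only [if_pos hj]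
             rw [hj, one_mul, sub_self, sub_zero, abs_zero]
             positivity
           · simp only [if_neg hj]
             exact h.onl ω (hGA ω hω) j
         · intro ω hω j
           have hAω := hGA ω hω
           have hsl := slam_coarse F hwv hvJ ω
           obtain ⟨⟨z1, z2⟩, z3, z4⟩ := key ω hω
           obtain ⟨g1, g2⟩ := hcω ω hω
           have hn0 : |N0 ω| = 1 := by
             rcases z3 with z3 | z3
             · exact z3
             · exfalso
               linarith only [hθ1, g2, z3]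
           have n0ne : N0 ω ≠ 0 := by
             intro hcon
             rw [hcon, abs_zero] at hn0
             exact zero_ne_one hn0
           have hθV : 0 ≤ θ / 2 ^ V := by positivity
           -- the slope
           have hXθ : 1 / 2 ^ X ≤ θ := hXδ.trans (by rw [hδθ]; nlinarith only [hx0, hx1, hθ0, hθ1])
           have hu : |e (Fam.pt F ω) (σ 1) - (a ω + Z ω / (2 ^ V * N0 ω))| ≤
               (2 * D + 1) * θ / 2 ^ V := by
             have e1 : e (Fam.pt F ω) (σ 1) - (a ω + Z ω / (2 ^ V * N0 ω)) =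
                 (e (Fam.pt F ω) (σ 1) - a' ω) +
                   ((N0 ω * (2 ^ V * (a' ω - a ω)) + N1 ω * (2 ^ (V + H) * (t' ω - t ω)) - Z ω) /
                     (2 ^ V * N0 ω) - N1 ω * (2 ^ (V + H) * (t' ω - t ω)) / (2 ^ V * N0 ω)) := by
               field_simp
               ring
             rw [e1]
             have q1 : |e (Fam.pt F ω) (σ 1) - a' ω| ≤ D * θ / 2 ^ V := by
               refine (h.an1 ω hAω).trans ?_
               have : D / 2 ^ (V + X) = D * (1 / 2 ^ X) / 2 ^ V := by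
                 rw [pow_add]
                 field_simp
               rw [this]
               exact div_le_div_of_nonneg_right (mul_le_mul_of_nonneg_left hXθ (by linarith only [hx0, hx1, hD])) pV.le
             have q2 : |(N0 ω * (2 ^ V * (a' ω - a ω)) + N1 ω * (2 ^ (V + H) * (t' ω - t ω)) - Z ω) /
                 (2 ^ V * N0 ω)| ≤ θ / 2 ^ V := by
               rw [abs_div, abs_mul, hn0, mul_one, abs_of_pos pV]
               refine div_le_div_of_nonneg_right (z4.le.trans ?_) pV.le
               rw [hδθ]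
               nlinarith only [hx0, hx1, hθ0, hθ1]
             have q3 : |N1 ω * (2 ^ (V + H) * (t' ω - t ω)) / (2 ^ V * N0 ω)| ≤ D * θ / 2 ^ V := by
               rw [abs_div, abs_mul, abs_mul, abs_mul, hn0, mul_one, abs_of_pos pV]
               refine div_le_div_of_nonneg_right ?_ pV.le
               have q4 : |(2 : ℝ) ^ (V + H)| * |t' ω - t ω| ≤ D := by
                 have := h.ct ω hAω
                 rw [le_div_iff₀ (by positivity)] at this
                 rw [abs_of_pos (by positivity), mul_comm]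
                 exact this
               calc |N1 ω| * (|(2 : ℝ) ^ (V + H)| * |t' ω - t ω|) ≤ θ * D :=
                     mul_le_mul g2.le q4 (by positivity) hθ0.le
                 _ = D * θ := mul_comm _ _
             refine (abs_add_le _ _).trans ?_
             have q5 := abs_sub ((N0 ω * (2 ^ V * (a' ω - a ω)) +
               N1 ω * (2 ^ (V + H) * (t' ω - t ω)) - Z ω) / (2 ^ V * N0 ω))
               (N1 ω * (2 ^ (V + H) * (t' ω - t ω)) / (2 ^ V * N0 ω))
             have e2 : (2 * D + 1) * θ / 2 ^ V = D * θ / 2 ^ V + (θ / 2 ^ V + D * θ / 2 ^ V) := by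
               ring
             rw [e2]
             linarith only [q1, q2, q3, q5]
           have hNd : |e (Fam.pt F ω) (σ 2) - (s ω * (a ω + Z ω / (2 ^ V * N0 ω)) + t ω)| ≤
               ((1 + B) * (2 * D + 1) + 2 * D) * θ / 2 ^ V := by
             have e1 : e (Fam.pt F ω) (σ 2) - (s ω * (a ω + Z ω / (2 ^ V * N0 ω)) + t ω) =
                 (e (Fam.pt F ω) (σ 2) - s ω * e (Fam.pt F ω) (σ 1) - t' ω) + (t' ω - t ω) +
                   s ω * (e (Fam.pt F ω) (σ 1) - (a ω + Z ω / (2 ^ V * N0 ω))) := by ring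
             rw [e1]
             have q1 : |e (Fam.pt F ω) (σ 2) - s ω * e (Fam.pt F ω) (σ 1) - t' ω| ≤
                 D * θ / 2 ^ V := by
               refine (h.an2 ω hAω).trans ?_
               have r1 : D / 2 ^ (V + H + X) ≤ D / 2 ^ (V + X) :=
                 div_le_div_of_nonneg_left (by linarith only [hx0, hx1, hD]) (by positivity)
                   (pow_le_pow_right₀ (by norm_num) (by omega))
               have : D / 2 ^ (V + X) = D * (1 / 2 ^ X) / 2 ^ V := by
                 rw [pow_add]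
                 field_simp
               rw [this] at r1
               exact r1.trans (div_le_div_of_nonneg_right
                 (mul_le_mul_of_nonneg_left hXθ (by linarith only [hx0, hx1, hD])) pV.le)
             have q2 : |t' ω - t ω| ≤ D * θ / 2 ^ V := by
               refine (h.ct ω hAω).trans ?_
               rw [div_le_div_iff₀ (by positivity) pV, pow_add]
               have : D * 2 ^ V * 1 ≤ D * 2 ^ V * (2 ^ H * θ) :=
                 mul_le_mul_of_nonneg_left g1.le (by positivity)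
               nlinarith only [this]
             have q3 : |s ω * (e (Fam.pt F ω) (σ 1) - (a ω + Z ω / (2 ^ V * N0 ω)))| ≤
                 B * ((2 * D + 1) * θ / 2 ^ V) := by
               rw [abs_mul]
               exact mul_le_mul (h.bs ω hAω) hu (abs_nonneg _) (by linarith only [hx0, hx1, hB])
             have q4 := abs_add_le ((e (Fam.pt F ω) (σ 2) - s ω * e (Fam.pt F ω) (σ 1) - t' ω) +
               (t' ω - t ω)) (s ω * (e (Fam.pt F ω) (σ 1) - (a ω + Z ω / (2 ^ V * N0 ω))))
             have q5 := abs_add_le (e (Fam.pt F ω) (σ 2) - s ω * e (Fam.pt F ω) (σ 1) - t' ω)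
               (t' ω - t ω)
             have e2 : ((1 + B) * (2 * D + 1) + 2 * D) * θ / 2 ^ V = (2 * D + 1) * (θ / 2 ^ V) +
                 D * θ / 2 ^ V + D * θ / 2 ^ V + B * ((2 * D + 1) * θ / 2 ^ V) := by ring
             have q6 : 0 ≤ (2 * D + 1) * (θ / 2 ^ V) := by positivity
             rw [e2]
             linarith only [q1, q2, q3, q4, q5, q6]
           obtain ⟨f1, f2, f3⟩ := hfr' ω
           rw [← hθ]
           simp only
           rw [← hsl]
           unfold nrE
           by_cases hj0 : j = σ 0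
           · rw [if_pos hj0, if_pos hj0, sub_self, abs_zero]
             positivity
           · rw [if_neg hj0, if_neg hj0]
             by_cases hj1 : j = σ 1
             · rw [if_pos hj1, hj1, ← f1]
               have : (2 * D + 1) * θ / 2 ^ V ≤ ((1 + B) * (2 * D + 1) + 2 * D) * θ / 2 ^ V := by
                 refine div_le_div_of_nonneg_right (mul_le_mul_of_nonneg_right ?_ hθ0.le) pV.le
                 nlinarith only [hx0, hx1, hC, hB, hC3]
               rw [hZ, hN0] at hu
               exact hu.trans this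
             · have hj2 : j = σ 2 := by
                 rcases h.hi j with k | k | k
                 · exact (hj0 k).elim
                 · exact (hj1 k).elim
                 · exact k
               rw [if_neg hj1, hj2, ← f1, ← f2, ← f3]
               rw [hZ, hN0] at hNd
               exact hNd
       · -- the first chart
         left
         have hi0' : i ≠ 0 := by rw [hi0]; decide
         have hab : ∀ ω, G ω → |cU H (s ω) (N0 ω) (N1 ω)| ≤ |cN H (N1 ω)| := by
           intro ω hω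
           by_contra hcon
           rw [hG] at hω
           have := hω.2
           rw [hcl, hi0] at this
           simp only [if_neg hcon] at this
           split_ifs at this
           · exact absurd this (by decide)
           · exact absurd this (by decide)
         have hbig : ∀ ω, G ω → 2 ^ H * θ / (1 + B) ≤ |cN H (N1 ω)| := by
           intro ω hω
           rcases hsize hi0' ω hω with k | k
           · exact k.trans (hab ω hω)
           · exact k
         obtain ⟨nN, sy, hR⟩ := rcf_of (F := F) (A := G) (i₀ := σ 0) (iu := σ 1) (iN := σ 2)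
           (Pu := Pu) (He := He) (w := w) (r := r) (Bs := 1) (Bc := C + 3) (C := C) (e := e) (n := n)
           (s := fun ω => cU H (s ω) (N0 ω) (N1 ω) / cN H (N1 ω))
           (c := fun ω => cE H V (a ω) (t ω) (N0 ω) (N1 ω) (-Z ω) / cN H (N1 ω)) h.hi
           (fun ω hω => h.onl ω (hGA ω hω)) (fun ω hω => h.be ω (hGA ω hω)) hHe hC0 zero_le_one
           (fun ω hω => (chart_s hT (hbig ω hω) (hab ω hω) (hdir ω hω)
             (h.be ω (hGA ω hω) _) (h.be ω (hGA ω hω) _)).1)
           (fun ω hω => (chart_s hT (hbig ω hω) (hab ω hω) (hdir ω hω)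
             (h.be ω (hGA ω hω) _) (h.be ω (hGA ω hω) _)).2.2.trans (by linarith only [hκ, hκ']))
           ⟨fun u => (cU H (fr u).2.1 ((ñ u).1 0) ((ñ u).1 1) / cN H ((ñ u).1 1),
             cE H V (fr u).1 (fr u).2.2 ((ñ u).1 0) ((ñ u).1 1) (-(ñ u).2) / cN H ((ñ u).1 1)),
             fun ω => by
               obtain ⟨f1, f2, f3⟩ := hfr' ω
               rw [hN0, hN1, hZ]
               simp only
               rw [← f1, ← f2, ← f3]⟩
           (fun ω hω => (chart_s hT (hbig ω hω) (hab ω hω) (hdir ω hω)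
             (h.be ω (hGA ω hω) _) (h.be ω (hGA ω hω) _)).2.1.trans hκ)
           (by
             rcases le_or_gt r He with hle | hlt
             · exact Or.inl hle
             · refine Or.inr ⟨fun v => -sv v, b, fun ω hω => ⟨?_, ?_⟩⟩
               · have := h.on2 ω (hGA ω hω)
                 rw [h.vis ω (hGA ω hω)] at this
                 have e1 : (F.d ω (σ 2) - e (Fam.pt F ω) (σ 2) * F.d ω (σ 0)) + -sv (Fam.pt F ω) *
                     (F.d ω (σ 1) - e (Fam.pt F ω) (σ 1) * F.d ω (σ 0)) - b (Fam.pt F ω) =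
                     (F.d ω (σ 2) - e (Fam.pt F ω) (σ 2) * F.d ω (σ 0)) - sv (Fam.pt F ω) *
                     (F.d ω (σ 1) - e (Fam.pt F ω) (σ 1) * F.d ω (σ 0)) - b (Fam.pt F ω) := by ring
                 rw [e1]
                 refine this.trans ?_
                 exact div_le_div₀ hC0 (by linarith only [hx0, hx1, hB, hC3]) (by positivity)
                   (pow_le_pow_right₀ (by norm_num) hrPN)
               · have hb := hbig ω hω
                 have hb0 : 0 < |cN H (N1 ω)| := lt_of_lt_of_le hT hb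
                 have hne : cN H (N1 ω) ≠ 0 := abs_pos.1 hb0
                 have e1 : cU H (s ω) (N0 ω) (N1 ω) / cN H (N1 ω) - -sv (Fam.pt F ω) =
                     N0 ω / cN H (N1 ω) := by
                   rw [← h.vis ω (hGA ω hω)]
                   have : cU H (s ω) (N0 ω) (N1 ω) = N0 ω - s ω * cN H (N1 ω) := rfl
                   rw [this]
                   field_simp
                   ring
                 simp only
                 rw [e1, abs_div]
                 refine le_trans ?_ (hnear hlt)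
                 have k1 : |N0 ω| / |cN H (N1 ω)| ≤ 1 / (2 ^ H * θ / (1 + B)) :=
                   div_le_div₀ (by norm_num) (key ω hω).1.1 hT hb
                 refine k1.trans (le_of_eq_of_le (b := (1 + B) / (2 ^ H * θ)) (by field_simp) ?_)
                 exact div_le_div_of_nonneg_right (by linarith only [hx0, hx1, hB]) (by positivity))
         have hR' := hR.big (Bs' := 1) (Bc' := C + 3) (C' := 3 * C + 4) le_rfl
           (fun ω hω => hR.bc ω hω) (by linarith only)
         rw [hC] at hR'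
         exact ⟨σ 1, σ 2, h.hi, _, _, sy, _, _, hR'⟩
       · -- the second chart
         left
         have hi0' : i ≠ 0 := by rw [hi0]; decide
         have hab : ∀ ω, G ω → |cN H (N1 ω)| ≤ |cU H (s ω) (N0 ω) (N1 ω)| := by
           intro ω hω
           by_contra hcon
           push Not at hcon
           rw [hG] at hω
           have := hω.2
           rw [hcl, hi0] at this
           simp only [if_pos hcon.le] at this
           split_ifs at this
           · exact absurd this (by decide)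
           · exact absurd this (by decide)
         have hbig : ∀ ω, G ω → 2 ^ H * θ / (1 + B) ≤ |cU H (s ω) (N0 ω) (N1 ω)| := by
           intro ω hω
           rcases hsize hi0' ω hω with k | k
           · exact k
           · exact k.trans (hab ω hω)
         have hdir' : ∀ ω, G ω → |cE H V (a ω) (t ω) (N0 ω) (N1 ω) (-Z ω) +
             cN H (N1 ω) * e (Fam.pt F ω) (σ 2) + cU H (s ω) (N0 ω) (N1 ω) *
               e (Fam.pt F ω) (σ 1)| ≤ (1 + 2 * D) * δ / 2 ^ V := by
           intro ω hω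
           have := hdir ω hω
           rwa [add_right_comm] at this
         have hi' : ∀ j, j = σ 0 ∨ j = σ 2 ∨ j = σ 1 := by
           intro j
           rcases h.hi j with k | k | k
           · exact Or.inl k
           · exact Or.inr (Or.inr k)
           · exact Or.inr (Or.inl k)
         obtain ⟨nN, sy, hR⟩ := rcf_of (F := F) (A := G) (i₀ := σ 0) (iu := σ 2) (iN := σ 1)
           (Pu := Pu) (He := He) (w := w) (r := r) (Bs := 1) (Bc := C + 3) (C := C) (e := e) (n := n)
           (s := fun ω => cN H (N1 ω) / cU H (s ω) (N0 ω) (N1 ω))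
           (c := fun ω => cE H V (a ω) (t ω) (N0 ω) (N1 ω) (-Z ω) / cU H (s ω) (N0 ω) (N1 ω)) hi'
           (fun ω hω => h.onl ω (hGA ω hω)) (fun ω hω => h.be ω (hGA ω hω)) hHe hC0 zero_le_one
           (fun ω hω => (chart_s hT (hbig ω hω) (hab ω hω) (hdir' ω hω)
             (h.be ω (hGA ω hω) _) (h.be ω (hGA ω hω) _)).1)
           (fun ω hω => (chart_s hT (hbig ω hω) (hab ω hω) (hdir' ω hω)
             (h.be ω (hGA ω hω) _) (h.be ω (hGA ω hω) _)).2.2.trans (by linarith only [hκ, hκ']))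
           ⟨fun u => (cN H ((ñ u).1 1) / cU H (fr u).2.1 ((ñ u).1 0) ((ñ u).1 1),
             cE H V (fr u).1 (fr u).2.2 ((ñ u).1 0) ((ñ u).1 1) (-(ñ u).2) /
               cU H (fr u).2.1 ((ñ u).1 0) ((ñ u).1 1)),
             fun ω => by
               obtain ⟨f1, f2, f3⟩ := hfr' ω
               rw [hN0, hN1, hZ]
               simp only
               rw [← f1, ← f2, ← f3]⟩
           (fun ω hω => (chart_s hT (hbig ω hω) (hab ω hω) (hdir' ω hω)
             (h.be ω (hGA ω hω) _) (h.be ω (hGA ω hω) _)).2.1.trans hκ)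
           (by
             rcases le_or_gt r He with hle | hlt
             · exact Or.inl hle
             · -- the slope `s` is not small
               have hsbig : ∀ ω, G ω → 1 / 2 ≤ |s ω| := by
                 intro ω hω
                 by_contra hcon
                 push Not at hcon
                 have k1 : |cU H (s ω) (N0 ω) (N1 ω)| ≤ |N0 ω| + |s ω| * |cN H (N1 ω)| := by
                   have := abs_sub (N0 ω) (s ω * cN H (N1 ω))
                   rwa [abs_mul] at this
                 have k2 := (key ω hω).1.1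
                 have k3 := hab ω hω
                 have k4 : |s ω| * |cN H (N1 ω)| ≤ 1 / 2 * |cU H (s ω) (N0 ω) (N1 ω)| :=
                   mul_le_mul hcon.le k3 (abs_nonneg _) (by norm_num)
                 have k5 : 2 ^ H * θ / (1 + B) ≤ 2 := (hbig ω hω).trans (by linarith only [k1, k2, k4])
                 rw [div_le_iff₀ (by linarith only [hx0, hx1, hB])] at k5
                 -- `2 ^ r < 2 ^ (V + X)`
                 have k6 : (2 : ℝ) ^ r < 2 ^ (V + X) := by
                   have k7 : (2 : ℝ) ^ r ≤ 2 ^ (V + H) / θ := by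
                     rw [le_div_iff₀ hθ0]
                     rw [div_le_div_iff₀ (by positivity) (by positivity)] at hr1
                     linarith only [hr1]
                   have k8 : (2 : ℝ) ^ (V + H) / θ = 2 ^ V * (2 ^ H * θ) * (1 / (θ * θ)) := by
                     rw [pow_add]
                     field_simp
                   have k9 : 1 / (θ * θ) = (2 : ℝ) ^ (x₀ * X) := by
                     rw [← hδθ, hδ, Real.rpow_neg (by norm_num), one_div, inv_inv]
                   rw [k8, k9] at k7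
                   have k10 : (2 : ℝ) ^ V * (2 ^ H * θ) * (2 : ℝ) ^ (x₀ * X) ≤
                       2 ^ V * (2 * (1 + B)) * (2 : ℝ) ^ (x₀ * X) :=
                     mul_le_mul_of_nonneg_right (mul_le_mul_of_nonneg_left k5 pV.le) (by positivity)
                   have k11 : (2 : ℝ) ^ V * (2 * (1 + B)) * (2 : ℝ) ^ (x₀ * X) =
                       2 ^ V * (2 * (1 + B) * (2 : ℝ) ^ (x₀ * X)) := by ring
                   rw [pow_add]
                   have k12 := mul_lt_mul_of_pos_left hX pV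
                   linarith only [k7, k10, k12]
                 have k13 : r < V + X := (pow_lt_pow_iff_right₀ (by norm_num : (1 : ℝ) < 2)).1 k6
                 omega
               refine Or.inr ⟨fun v => -(1 / sv v), fun v => -(b v / sv v), fun ω hω => ⟨?_, ?_⟩⟩
               · have h2 := h.on2 ω (hGA ω hω)
                 have h3 := hsbig ω hω
                 rw [h.vis ω (hGA ω hω)] at h2 h3
                 have h4 : sv (Fam.pt F ω) ≠ 0 := by
                   intro hcon
                   rw [hcon, abs_zero] at h3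
                   linarith only [hx0, hx1, h3]
                 have e1 : (F.d ω (σ 1) - e (Fam.pt F ω) (σ 1) * F.d ω (σ 0)) +
                     -(1 / sv (Fam.pt F ω)) *
                     (F.d ω (σ 2) - e (Fam.pt F ω) (σ 2) * F.d ω (σ 0)) -
                     -(b (Fam.pt F ω) / sv (Fam.pt F ω)) =
                     -((F.d ω (σ 2) - e (Fam.pt F ω) (σ 2) * F.d ω (σ 0)) - sv (Fam.pt F ω) *
                     (F.d ω (σ 1) - e (Fam.pt F ω) (σ 1) * F.d ω (σ 0)) - b (Fam.pt F ω)) /
                       sv (Fam.pt F ω) := by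
                   field_simp
                   ring
                 simp only
                 rw [e1, abs_div, abs_neg]
                 have k1 : |(F.d ω (σ 2) - e (Fam.pt F ω) (σ 2) * F.d ω (σ 0)) - sv (Fam.pt F ω) *
                     (F.d ω (σ 1) - e (Fam.pt F ω) (σ 1) * F.d ω (σ 0)) - b (Fam.pt F ω)| /
                     |sv (Fam.pt F ω)| ≤ (1 / 2 ^ PN) / (1 / 2) :=
                   div_le_div₀ (by positivity) h2 (by norm_num) h3
                 refine k1.trans ?_
                 have e2 : (1 : ℝ) / 2 ^ PN / (1 / 2) = 2 / 2 ^ PN := by ring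
                 rw [e2]
                 exact div_le_div₀ hC0 (by linarith only [hx0, hx1, hB, hC3]) (by positivity)
                   (pow_le_pow_right₀ (by norm_num) hrPN)
               · have hb := hbig ω hω
                 have hb0 : 0 < |cU H (s ω) (N0 ω) (N1 ω)| := lt_of_lt_of_le hT hb
                 have hne : cU H (s ω) (N0 ω) (N1 ω) ≠ 0 := abs_pos.1 hb0
                 have h3 := hsbig ω hω
                 have h4 : s ω ≠ 0 := by
                   intro hcon
                   rw [hcon, abs_zero] at h3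
                   linarith only [hx0, hx1, h3]
                 have e1 : cN H (N1 ω) / cU H (s ω) (N0 ω) (N1 ω) - -(1 / sv (Fam.pt F ω)) =
                     N0 ω / (s ω * cU H (s ω) (N0 ω) (N1 ω)) := by
                   rw [← h.vis ω (hGA ω hω)]
                   have e2 : cN H (N1 ω) / cU H (s ω) (N0 ω) (N1 ω) - -(1 / s ω) =
                       (s ω * cN H (N1 ω) + cU H (s ω) (N0 ω) (N1 ω)) /
                         (s ω * cU H (s ω) (N0 ω) (N1 ω)) := by
                     field_simp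
                     ring
                   rw [e2]
                   congr 1
                   have : cU H (s ω) (N0 ω) (N1 ω) = N0 ω - s ω * cN H (N1 ω) := rfl
                   rw [this]
                   ring
                 simp only
                 rw [e1, abs_div, abs_mul]
                 refine le_trans ?_ (hnear hlt)
                 have k0 : 1 / 2 * (2 ^ H * θ / (1 + B)) ≤ |s ω| * |cU H (s ω) (N0 ω) (N1 ω)| :=
                   mul_le_mul h3 hb hT.le (abs_nonneg _)
                 have k1 : |N0 ω| / (|s ω| * |cU H (s ω) (N0 ω) (N1 ω)|) ≤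
                     1 / (1 / 2 * (2 ^ H * θ / (1 + B))) :=
                   div_le_div₀ (by norm_num) (key ω hω).1.1 (by positivity) k0
                 refine k1.trans (le_of_eq ?_)
                 field_simp)
         have hR' := hR.big (Bs' := 1) (Bc' := C + 3) (C' := 3 * C + 4) le_rfl
           (fun ω hω => hR.bc ω hω) (by linarith only)
         rw [hC] at hR'
         exact ⟨σ 2, σ 1, hi', _, _, sy, _, _, hR'⟩

end fam

end Pool.S6H
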